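import Mathlib

/-!
LPR-UltOne (Mathlib only): one positive element can be put in the positive cone of a finer basis.

Notation: a basis `B` of `ℤ^j` is positive if `w (B i) > 0` for all `i`.  `a l = B.repr m l`.

ELEMENTARY STEP.  Let `i ≠ k` and `w (B i) < w (B k)`.  Let `φ` be the automorphism
`x ↦ x - (B.coord k x) • B i` of `ℤ^j` (inverse `x ↦ x + (B.coord k x) • B i`;
e.g. `LinearEquiv.transvection`, or build the `LinearEquiv` by hand) and `B' = B.map φ`.  Then
`B' k = B k - B i`, `B' l = B l` for `l ≠ k`, `B'` is positive, and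
`B'.repr x = B.repr (φ⁻¹ x)`, so `B'.repr x i = B.repr x i + B.repr x k` and
`B'.repr x l = B.repr x l` for `l ≠ i`.  In particular if all `B.repr x l ≥ 0` then all
`B'.repr x l ≥ 0` (so the condition on the elements `B₀ i` of the original basis is kept).

TERMINATION.  Suppose some `a l < 0`.  Let `M = max |a l|`, choose `p` with `|a p| = M`, `M > 0`.
Some `q` has `a q` of sign opposite to `a p`: if `a p > 0` this is the assumption; if `a p < 0`
and all `a l ≤ 0` then `w m = ∑ a l * w (B l) < 0`, contradiction.  `w (B p) ≠ w (B q)` as `w`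
is injective and `B p ≠ B q`.
 * If `w (B p) < w (B q)`: step with `i = p`, `k = q`: `a p` is replaced by `a p + a q`, of
   absolute value `< M`, the other coordinates stay.
 * If `w (B q) < w (B p)`: step with `i = q`, `k = p`: `a q` is replaced by `a q + a p`, which
   is `0` or has the sign of `a p`, and has absolute value `< M`.
So with `c = #{l | |a l| = M}` and `o = #{l | a l * a p < 0}` the pair `(M, c)` never increases
(lexicographically), and either it decreases or, with the same `p`, `o` decreases.  Induction:
prove by `Nat.strong_induction_on N` the statement: for all positive `B` (finer than `B₀`), all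
`p` with `|a l| ≤ |a p|` for all `l`, if `(|a p| * (j+1) + c) * (j+1) + o ≤ N` [`c, o ≤ j`,
`c ≥ 1`] then the claim holds.  (When `(M, c)` decreases choose a new `p`; `o ≤ j` always.
`M' < M` gives `M' * (j+1) + c' ≤ (M-1) * (j+1) + j < M * (j+1) + c`.)
Any other proof is welcome.
-/

namespace Pool.Agent.LPR

private theorem ultone_step {j : ℕ} (B : Module.Basis (Fin j) ℤ (Fin j → ℤ)) (i k : Fin j)
    (hik : i ≠ k) : ∃ B' : Module.Basis (Fin j) ℤ (Fin j → ℤ),
      (∀ l, B' l = if l = k then B k - B i else B l) ∧
      ∀ x l, B'.repr x l = B.repr x l + if l = i then B.repr x k else 0 := by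
  have hki : B.coord k (B i) = 0 := by
    rw [Module.Basis.coord_apply, Module.Basis.repr_self, Finsupp.single_apply, if_neg hik]
  let F : (Fin j → ℤ) →ₗ[ℤ] (Fin j → ℤ) := LinearMap.id - (B.coord k).smulRight (B i)
  let G : (Fin j → ℤ) →ₗ[ℤ] (Fin j → ℤ) := LinearMap.id + (B.coord k).smulRight (B i)
  have hF : ∀ x, F x = x - B.coord k x • B i := fun x => rfl
  have hG : ∀ x, G x = x + B.coord k x • B i := fun x => rfl
  have h1 : F.comp G = LinearMap.id := by
    refine LinearMap.ext fun x => ?_
    rw [LinearMap.comp_apply, hF, hG, map_add, map_smul, hki, smul_zero, add_zero,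
      add_sub_cancel_right]
    rfl
  have h2 : G.comp F = LinearMap.id := by
    refine LinearMap.ext fun x => ?_
    rw [LinearMap.comp_apply, hG, hF, map_sub, map_smul, hki, smul_zero, sub_zero,
      sub_add_cancel]
    rfl
  let φ : (Fin j → ℤ) ≃ₗ[ℤ] (Fin j → ℤ) := LinearEquiv.ofLinearMap F G h1 h2
  refine ⟨B.map φ, ?_, ?_⟩
  · intro l
    rw [Module.Basis.map_apply]
    show F (B l) = _
    rw [hF, Module.Basis.coord_apply, Module.Basis.repr_self, Finsupp.single_apply]
    by_cases h : l = k
    · rw [if_pos h, if_pos h, one_smul, h]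
    · rw [if_neg h, if_neg h, zero_smul, sub_zero]
  · intro x l
    rw [Module.Basis.map_repr]
    show B.repr (G x) l = _
    rw [hG, map_add, map_smul, Finsupp.add_apply, Finsupp.smul_apply, Module.Basis.repr_self,
      Finsupp.single_apply, Module.Basis.coord_apply]
    by_cases h : l = i
    · rw [if_pos h, if_pos h.symm, smul_eq_mul, mul_one]
    · rw [if_neg h, if_neg (fun h' => h h'.symm), smul_zero]

private theorem ultone_pos {j : ℕ} (w : (Fin j → ℤ) →+ ℝ)
    (B : Module.Basis (Fin j) ℤ (Fin j → ℤ)) (hB : ∀ i, 0 < w (B i)) (m : Fin j → ℤ)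
    (hm : 0 < w m) : ∃ q, 0 < B.repr m q := by
  by_contra hcon
  push Not at hcon
  have h1 : w m = ∑ l, (B.repr m l : ℝ) * w (B l) := by
    conv_lhs => rw [← B.sum_repr m]
    rw [map_sum]
    refine Finset.sum_congr rfl fun l _ => ?_
    rw [map_zsmul, zsmul_eq_mul]
  have h2 : ∑ l, (B.repr m l : ℝ) * w (B l) ≤ 0 := by
    refine Finset.sum_nonpos fun l _ => ?_
    have h3 : (B.repr m l : ℝ) ≤ 0 := by exact_mod_cast hcon l
    exact mul_nonpos_of_nonpos_of_nonneg h3 (hB l).le
  linarith

private theorem ultone_aux {j : ℕ} (w : (Fin j → ℤ) →+ ℝ) (hw : Function.Injective w)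
    (B₀ : Module.Basis (Fin j) ℤ (Fin j → ℤ)) (m : Fin j → ℤ) (hm : 0 < w m) (M : ℕ) :
    ∀ c o : ℕ, ∀ B : Module.Basis (Fin j) ℤ (Fin j → ℤ), (∀ i, 0 < w (B i)) →
      (∀ i k, 0 ≤ B.repr (B₀ i) k) → ∀ p : Fin j,
      (∀ l, (B.repr m l).natAbs ≤ (B.repr m p).natAbs) → (B.repr m p).natAbs = M →
      (Finset.univ.filter fun l => (B.repr m l).natAbs = M).card = c →
      (Finset.univ.filter fun l => B.repr m l * B.repr m p < 0).card = o →
    ∃ B' : Module.Basis (Fin j) ℤ (Fin j → ℤ), (∀ i, 0 < w (B' i)) ∧
      (∀ i k, 0 ≤ B'.repr (B₀ i) k) ∧ ∀ k, 0 ≤ B'.repr m k := by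
  induction M using Nat.strong_induction_on with
  | _ M ihM =>
  intro c
  induction c using Nat.strong_induction_on with
  | _ c ihc =>
  intro o
  induction o using Nat.strong_induction_on with
  | _ o iho =>
  intro B hB hB₀ p hp hM hc ho
  by_cases hall : ∀ k, 0 ≤ B.repr m k
  · exact ⟨B, hB, hB₀, hall⟩
  push Not at hall
  obtain ⟨l₀, hl₀⟩ := hall
  obtain ⟨l₁, hl₁⟩ := ultone_pos w B hB m hm
  have hp0 : B.repr m p ≠ 0 := by
    intro h
    have h1 := hp l₀
    rw [h] at h1
    omega
  -- an index of opposite sign
  have hq : ∃ q, B.repr m q * B.repr m p < 0 := by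
    rcases lt_or_gt_of_ne hp0 with h | h
    · exact ⟨l₁, mul_neg_of_pos_of_neg hl₁ h⟩
    · exact ⟨l₀, mul_neg_of_neg_of_pos hl₀ h⟩
  obtain ⟨q, hq⟩ := hq
  have hpq : p ≠ q := by
    rintro rfl
    have := mul_self_nonneg (B.repr m p)
    omega
  have hwpq : w (B p) ≠ w (B q) := fun h => hpq (B.injective (hw h))
  have hsum : (B.repr m p + B.repr m q).natAbs < M := by
    have h1 := hp q
    rcases lt_or_gt_of_ne hp0 with h | h
    · have h2 : 0 < B.repr m q := by
        by_contra h3
        push Not at h3
        have := mul_nonneg_of_nonpos_of_nonpos h3 h.le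
        omega
      omega
    · have h2 : B.repr m q < 0 := by
        by_contra h3
        push Not at h3
        have := mul_nonneg h3 h.le
        omega
      omega
  rcases lt_or_gt_of_ne hwpq with hlt | hlt
  · -- replace the coordinate at `p`
    obtain ⟨B', hB'1, hB'2⟩ := ultone_step B p q hpq
    have hpos : ∀ i, 0 < w (B' i) := by
      intro i
      rw [hB'1]
      by_cases h : i = q
      · rw [if_pos h, map_sub]
        linarith
      · rw [if_neg h]
        exact hB i
    have hcone : ∀ i k, 0 ≤ B'.repr (B₀ i) k := by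
      intro i k
      rw [hB'2]
      by_cases h : k = p
      · rw [if_pos h]
        exact add_nonneg (hB₀ i k) (hB₀ i q)
      · rw [if_neg h, add_zero]
        exact hB₀ i k
    have hself : (B'.repr m p).natAbs < M := by
      rw [hB'2, if_pos rfl]
      exact hsum
    have hoth : ∀ l, l ≠ p → B'.repr m l = B.repr m l := by
      intro l hl
      rw [hB'2, if_neg hl, add_zero]
    obtain ⟨p', -, hp'⟩ := Finset.exists_max_image Finset.univ (fun l => (B'.repr m l).natAbs)
      ⟨p, Finset.mem_univ _⟩
    have hM' : (B'.repr m p').natAbs ≤ M := by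
      by_cases h : p' = p
      · rw [h]
        exact hself.le
      · rw [hoth p' h, ← hM]
        exact hp p'
    rcases hM'.lt_or_eq with h | h
    · exact ihM _ h _ _ B' hpos hcone p' (fun l => hp' l (Finset.mem_univ _)) rfl rfl rfl
    · have hcc : (Finset.univ.filter fun l => (B'.repr m l).natAbs = M).card < c := by
        rw [← hc]
        refine Finset.card_lt_card ?_
        rw [Finset.ssubset_iff_of_subset]
        · refine ⟨p, Finset.mem_filter.2 ⟨Finset.mem_univ _, hM⟩, ?_⟩
          intro h3
          have := (Finset.mem_filter.1 h3).2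
          omega
        · intro l hl
          have h3 := (Finset.mem_filter.1 hl).2
          have h4 : l ≠ p := by
            rintro rfl
            omega
          rw [hoth l h4] at h3
          exact Finset.mem_filter.2 ⟨Finset.mem_univ _, h3⟩
      exact ihc _ hcc _ B' hpos hcone p' (fun l => hp' l (Finset.mem_univ _)) h rfl rfl
  · -- replace the coordinate at `q`
    obtain ⟨B', hB'1, hB'2⟩ := ultone_step B q p (Ne.symm hpq)
    have hpos : ∀ i, 0 < w (B' i) := by
      intro i
      rw [hB'1]
      by_cases h : i = p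
      · rw [if_pos h, map_sub]
        linarith
      · rw [if_neg h]
        exact hB i
    have hcone : ∀ i k, 0 ≤ B'.repr (B₀ i) k := by
      intro i k
      rw [hB'2]
      by_cases h : k = q
      · rw [if_pos h]
        exact add_nonneg (hB₀ i k) (hB₀ i p)
      · rw [if_neg h, add_zero]
        exact hB₀ i k
    have hqq : B'.repr m q = B.repr m q + B.repr m p := by
      rw [hB'2, if_pos rfl]
    have hself : (B'.repr m q).natAbs < M := by
      rw [hqq, add_comm]
      exact hsum
    have hoth : ∀ l, l ≠ q → B'.repr m l = B.repr m l := by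
      intro l hl
      rw [hB'2, if_neg hl, add_zero]
    have hpp : B'.repr m p = B.repr m p := hoth p hpq
    have hpm : ∀ l, (B'.repr m l).natAbs ≤ (B'.repr m p).natAbs := by
      intro l
      rw [hpp]
      by_cases h : l = q
      · rw [h]
        omega
      · rw [hoth l h]
        exact hp l
    have hsub : (Finset.univ.filter fun l => (B'.repr m l).natAbs = M) ⊆
        Finset.univ.filter fun l => (B.repr m l).natAbs = M := by
      intro l hl
      have h3 := (Finset.mem_filter.1 hl).2
      have h4 : l ≠ q := by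
        rintro rfl
        omega
      rw [hoth l h4] at h3
      exact Finset.mem_filter.2 ⟨Finset.mem_univ _, h3⟩
    have hcc : (Finset.univ.filter fun l => (B'.repr m l).natAbs = M).card ≤ c := by
      rw [← hc]
      exact Finset.card_le_card hsub
    rcases hcc.lt_or_eq with h | h
    · exact ihc _ h _ B' hpos hcone p hpm (by rw [hpp]; exact hM) rfl rfl
    · have hoo : (Finset.univ.filter fun l => B'.repr m l * B'.repr m p < 0).card < o := by
        rw [← ho]
        have hq' : ¬ B'.repr m q * B'.repr m p < 0 := by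
          rw [hqq, hpp]
          intro h3
          have h4 := hp q
          rcases lt_or_gt_of_ne hp0 with h5 | h5
          · have h6 : 0 < B.repr m q + B.repr m p := by
              by_contra h7
              push Not at h7
              have := mul_nonneg_of_nonpos_of_nonpos h7 h5.le
              omega
            omega
          · have h6 : B.repr m q + B.repr m p < 0 := by
              by_contra h7
              push Not at h7
              have := mul_nonneg h7 h5.le
              omega
            omega
        refine Finset.card_lt_card ?_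
        rw [Finset.ssubset_iff_of_subset]
        · exact ⟨q, Finset.mem_filter.2 ⟨Finset.mem_univ _, hq⟩, fun h3 =>
            hq' (Finset.mem_filter.1 h3).2⟩
        · intro l hl
          have h3 := (Finset.mem_filter.1 hl).2
          have h4 : l ≠ q := by
            rintro rfl
            exact hq' h3
          rw [hoth l h4, hpp] at h3
          exact Finset.mem_filter.2 ⟨Finset.mem_univ _, h3⟩
      exact iho _ hoo B' hpos hcone p hpm (by rw [hpp]; exact hM) h rfl

theorem ult_one {j : ℕ} (w : (Fin j → ℤ) →+ ℝ) (hw : Function.Injective w)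
    (B : Module.Basis (Fin j) ℤ (Fin j → ℤ)) (hB : ∀ i, 0 < w (B i)) (m : Fin j → ℤ)
    (hm : 0 < w m) :
    ∃ B' : Module.Basis (Fin j) ℤ (Fin j → ℤ), (∀ i, 0 < w (B' i)) ∧
      (∀ i k, 0 ≤ B'.repr (B i) k) ∧ ∀ k, 0 ≤ B'.repr m k := by
  obtain ⟨l₁, hl₁⟩ := ultone_pos w B hB m hm
  obtain ⟨p, -, hp⟩ := Finset.exists_max_image Finset.univ (fun l => (B.repr m l).natAbs)
    ⟨l₁, Finset.mem_univ _⟩
  refine ultone_aux w hw B m hm _ _ _ B hB ?_ p (fun l => hp l (Finset.mem_univ _)) rfl rfl rfl
  intro i k
  rw [Module.Basis.repr_self, Finsupp.single_apply]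
  split_ifs
  · exact zero_le_one
  · exact le_rfl

end Pool.Agent.LPR
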