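import Mathlib
import Pool.Agent.LPR.UltOne

/-!
LPR-Ult: finitely many positive elements lie in the positive cone of a positive basis.

Induction on the number of elements, with `ult_one`.
-/

namespace Pool.Agent.LPR

variable {j : ℕ}

theorem exists_pos_basis (w : (Fin j → ℤ) →+ ℝ) (hw : Function.Injective w) :
    ∃ B : Module.Basis (Fin j) ℤ (Fin j → ℤ), ∀ i, 0 < w (B i) := by
  classical
  refine ⟨(Pi.basisFun ℤ (Fin j)).unitsSMul
    (fun i => if 0 < w (Pi.basisFun ℤ (Fin j) i) then 1 else -1), fun i => ?_⟩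
  rw [Module.Basis.unitsSMul_apply]
  split_ifs with h
  · rw [one_smul]
    exact h
  · have h1 : w (Pi.basisFun ℤ (Fin j) i) ≠ 0 := by
      intro h0
      exact (Pi.basisFun ℤ (Fin j)).ne_zero i (hw (by rw [h0, map_zero]))
    have h2 : w (Pi.basisFun ℤ (Fin j) i) < 0 := lt_of_le_of_ne (not_lt.1 h) h1
    rw [Units.smul_def, Units.val_neg, Units.val_one, neg_smul, one_smul, map_neg]
    linarith

theorem repr_trans (B B' : Module.Basis (Fin j) ℤ (Fin j → ℤ)) (x : Fin j → ℤ) (k : Fin j) :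
    B'.repr x k = ∑ i, B.repr x i * B'.repr (B i) k := by
  conv_lhs => rw [← B.sum_repr x]
  rw [map_sum, Finsupp.finsetSum_apply]
  refine Finset.sum_congr rfl fun i _ => ?_
  rw [map_smul, Finsupp.smul_apply, smul_eq_mul]

theorem ult (w : (Fin j → ℤ) →+ ℝ) (hw : Function.Injective w)
    (B : Module.Basis (Fin j) ℤ (Fin j → ℤ)) (hB : ∀ i, 0 < w (B i))
    (F : Finset (Fin j → ℤ)) (hF : ∀ m ∈ F, 0 < w m) :
    ∃ B' : Module.Basis (Fin j) ℤ (Fin j → ℤ), (∀ i, 0 < w (B' i)) ∧
      (∀ i k, 0 ≤ B'.repr (B i) k) ∧ ∀ m ∈ F, ∀ k, 0 ≤ B'.repr m k := by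
  classical
  induction F using Finset.induction_on with
  | empty =>
    refine ⟨B, hB, fun i k => ?_, fun m hm => absurd hm (Finset.notMem_empty m)⟩
    rw [Module.Basis.repr_self, Finsupp.single_apply]
    split_ifs <;> norm_num
  | insert m F hm ih =>
    obtain ⟨B', h1, h2, h3⟩ := ih fun x hx => hF x (Finset.mem_insert_of_mem hx)
    obtain ⟨B'', k1, k2, k3⟩ := ult_one w hw B' h1 m (hF m (Finset.mem_insert_self m F))
    have key : ∀ x, (∀ k, 0 ≤ B'.repr x k) → ∀ k, 0 ≤ B''.repr x k := by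
      intro x hx k
      rw [repr_trans B' B'' x k]
      exact Finset.sum_nonneg fun i _ => mul_nonneg (hx i) (k2 i k)
    refine ⟨B'', k1, fun i => key _ (h2 i), fun x hx => ?_⟩
    rcases Finset.mem_insert.1 hx with rfl | hx
    · exact k3
    · exact key x (h3 x hx)

end Pool.Agent.LPR
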