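import Mathlib
import Pool.Agent.LPR.Ult

/-! LPR-Deep: for `j ≥ 2` there are deep positive bases. -/

namespace Pool.Agent.LPR

variable {j : ℕ}

theorem exists_small (hj : 2 ≤ j) (w : (Fin j → ℤ) →+ ℝ) (hw : Function.Injective w) (ε : ℝ)
    (hε : 0 < ε) : ∃ h : Fin j → ℤ, 0 < w h ∧ w h < ε := by
  rcases AddSubgroup.dense_or_cyclic w.range with hd | ⟨a, ha⟩
  · obtain ⟨x, ⟨h, rfl⟩, hx⟩ := hd.exists_mem_open isOpen_Ioo (Set.nonempty_Ioo.2 hε)
    exact ⟨h, hx.1, hx.2⟩
  · exfalso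
    let i0 : Fin j := ⟨0, by omega⟩
    let i1 : Fin j := ⟨1, by omega⟩
    have hne : i0 ≠ i1 := by
      intro h
      have := congrArg Fin.val h
      simp [i0, i1] at this
    have h0 : w (Pi.single i0 1) ∈ AddSubgroup.closure {a} := by
      rw [← ha]
      exact ⟨_, rfl⟩
    have h1 : w (Pi.single i1 1) ∈ AddSubgroup.closure {a} := by
      rw [← ha]
      exact ⟨_, rfl⟩
    obtain ⟨p, hp⟩ := AddSubgroup.mem_closure_singleton.1 h0
    obtain ⟨q, hq⟩ := AddSubgroup.mem_closure_singleton.1 h1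
    have h2 : w (q • (Pi.single i0 1 : Fin j → ℤ) - p • (Pi.single i1 1 : Fin j → ℤ)) = w 0 := by
      rw [map_sub, map_zsmul, map_zsmul, ← hp, ← hq, map_zero, smul_smul, smul_smul, mul_comm,
        sub_self]
    have h3 := hw h2
    have h5 := congrFun h3 i1
    simp only [Pi.sub_apply, Pi.smul_apply, Pi.single_eq_same, Pi.single_eq_of_ne hne.symm,
      smul_eq_mul, mul_one, mul_zero, Pi.zero_apply] at h5
    have h6 : p = 0 := by omega
    rw [h6, zero_smul] at hp
    have h7 : (Pi.single i0 1 : Fin j → ℤ) = 0 := hw (by rw [← hp, map_zero])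
    have h8 := congrFun h7 i0
    simp at h8

theorem deep (hj : 2 ≤ j) (w : (Fin j → ℤ) →+ ℝ) (hw : Function.Injective w)
    (B : Module.Basis (Fin j) ℤ (Fin j → ℤ)) (hB : ∀ i, 0 < w (B i)) (N : ℕ) :
    ∃ B' : Module.Basis (Fin j) ℤ (Fin j → ℤ), (∀ i, 0 < w (B' i)) ∧
      ∀ i k, (N : ℤ) ≤ B'.repr (B i) k := by
  classical
  have : Nonempty (Fin j) := ⟨⟨0, by omega⟩⟩
  obtain ⟨i0, hi0⟩ := Finite.exists_min (fun i => w (B i))
  have hc : (0 : ℝ) < (N : ℝ) * (j + 1) + 1 := by positivity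
  obtain ⟨h, hh0, hh1⟩ := exists_small hj w hw (w (B i0) / ((N : ℝ) * (j + 1) + 1))
    (div_pos (hB i0) hc)
  have hh : ∀ i, ((N : ℝ) * (j + 1) + 1) * w h < w (B i) := by
    intro i
    rw [lt_div_iff₀ hc] at hh1
    have h2 := hi0 i
    linarith
  let n : Fin j → ℤ := fun i => ⌈w (B i) / w h⌉ - 1
  have hn : ∀ i, (n i : ℝ) * w h < w (B i) ∧ w (B i) ≤ ((n i : ℝ) + 1) * w h := by
    intro i
    have h1 := Int.ceil_lt_add_one (w (B i) / w h)
    have h2 := Int.le_ceil (w (B i) / w h)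
    simp only [n]
    push_cast
    constructor
    · rw [← lt_div_iff₀ hh0]
      linarith
    · rw [← div_le_iff₀ hh0]
      linarith
  let t : Fin j → (Fin j → ℤ) := fun i => B i - n i • h
  have ht : ∀ i, w (t i) = w (B i) - (n i : ℝ) * w h := by
    intro i
    simp only [t]
    rw [map_sub, map_zsmul, zsmul_eq_mul]
  have ht0 : ∀ i, 0 < w (t i) := fun i => by rw [ht]; linarith [(hn i).1]
  have ht1 : ∀ i, w (t i) ≤ w h := fun i => by rw [ht]; linarith [(hn i).2]
  let s : Fin j → ℤ := h + ∑ i, t i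
  have hs : w s ≤ ((j : ℝ) + 1) * w h := by
    simp only [s]
    rw [map_add, map_sum]
    have h1 : ∑ i, w (t i) ≤ ∑ _i : Fin j, w h := Finset.sum_le_sum fun i _ => ht1 i
    rw [Finset.sum_const, Finset.card_univ, Fintype.card_fin, nsmul_eq_mul] at h1
    linarith
  have hBs : ∀ i, 0 < w (B i - (N : ℤ) • s) := by
    intro i
    rw [map_sub, map_zsmul, zsmul_eq_mul, Int.cast_natCast]
    have h1 : (N : ℝ) * w s ≤ (N : ℝ) * (((j : ℝ) + 1) * w h) :=
      mul_le_mul_of_nonneg_left hs (Nat.cast_nonneg N)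
    have h2 := hh i
    nlinarith
  obtain ⟨B', hB', -, hF⟩ := ult w hw B hB
    (insert h (Finset.univ.image t ∪ Finset.univ.image fun i => B i - (N : ℤ) • s)) (by
      intro m hm
      rw [Finset.mem_insert, Finset.mem_union, Finset.mem_image, Finset.mem_image] at hm
      rcases hm with rfl | ⟨i, -, rfl⟩ | ⟨i, -, rfl⟩
      · exact hh0
      · exact ht0 i
      · exact hBs i)
  have hFh : ∀ k, 0 ≤ B'.repr h k := hF h (Finset.mem_insert_self _ _)
  have hFt : ∀ i k, 0 ≤ B'.repr (t i) k := fun i => hF (t i) (Finset.mem_insert_of_mem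
    (Finset.mem_union_left _ (Finset.mem_image_of_mem _ (Finset.mem_univ i))))
  have hFs : ∀ i k, 0 ≤ B'.repr (B i - (N : ℤ) • s) k := fun i => hF _
    (Finset.mem_insert_of_mem (Finset.mem_union_right _
      (Finset.mem_image_of_mem (fun i => B i - (N : ℤ) • s) (Finset.mem_univ i))))
  have hsr : ∀ k, B'.repr s k = B'.repr h k + ∑ i, B'.repr (t i) k := by
    intro k
    simp only [s]
    rw [map_add, map_sum, Finsupp.add_apply, Finsupp.finsetSum_apply]
  refine ⟨B', hB', fun i k => ?_⟩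
  have h1 : 1 ≤ B'.repr s k := by
    by_contra hcon
    have h2 : B'.repr s k ≤ 0 := by omega
    rw [hsr] at h2
    have h3 : 0 ≤ ∑ i, B'.repr (t i) k := Finset.sum_nonneg fun i _ => hFt i k
    have h4 := hFh k
    have h5 : B'.repr h k = 0 := by omega
    have h6 : ∑ i, B'.repr (t i) k = 0 := by omega
    have h7 := (Finset.sum_eq_zero_iff_of_nonneg fun i _ => hFt i k).1 h6
    have h8 : ∀ i, B'.repr (B i) k = 0 := by
      intro i
      have h9 : B i = t i + n i • h := by simp [t]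
      rw [h9, map_add, map_zsmul, Finsupp.add_apply, Finsupp.smul_apply, h5, smul_zero,
        add_zero]
      exact h7 i (Finset.mem_univ i)
    have h9 := repr_trans B B' (B' k) k
    rw [Finset.sum_eq_zero fun i _ => by rw [h8 i, mul_zero]] at h9
    simp at h9
  have h2 : B i = (N : ℤ) • s + (B i - (N : ℤ) • s) := by abel
  rw [h2, map_add, map_zsmul, Finsupp.add_apply, Finsupp.smul_apply, smul_eq_mul]
  have h3 := hFs i k
  have h4 : (N : ℤ) * 1 ≤ (N : ℤ) * B'.repr s k :=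
    mul_le_mul_of_nonneg_left h1 (Int.natCast_nonneg N)
  linarith

end Pool.Agent.LPR
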