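import Mathlib

/-!
LPR-Disc (Mathlib only): a submonoid generated by finitely many elements of positive `w`-value has
only finitely many elements of bounded `w`-value.
-/

namespace Pool.Agent.LPR

private theorem disc_len {G : Type*} [AddCommGroup G] (w : G →+ ℝ) {δ : ℝ} (T : Finset G)
    (hT : ∀ t ∈ T, δ ≤ w t) (l : List G) (hl : ∀ y ∈ l, y ∈ T) : δ * l.length ≤ w l.sum := by
  induction l with
  | nil => simp
  | cons a l ih =>
    have h1 := hT a (hl a List.mem_cons_self)
    have h2 := ih fun y hy => hl y (List.mem_cons_of_mem _ hy)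
    rw [List.sum_cons, map_add, List.length_cons]
    push_cast
    linarith

theorem finite_low {G : Type*} [AddCommGroup G] (w : G →+ ℝ) (T : Finset G)
    (hT : ∀ t ∈ T, 0 < w t) (C : ℝ) :
    {s : G | s ∈ AddSubmonoid.closure (T : Set G) ∧ w s ≤ C}.Finite := by
  classical
  rcases T.eq_empty_or_nonempty with rfl | hne
  · refine (Set.finite_singleton (0 : G)).subset fun s hs => ?_
    have h1 := hs.1
    rw [Finset.coe_empty, AddSubmonoid.closure_empty, AddSubmonoid.mem_bot] at h1
    exact h1
  · obtain ⟨t0, ht0, hmin⟩ := T.exists_min_image w hne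
    have hδ : 0 < w t0 := hT t0 ht0
    refine ((List.finite_length_le T (Nat.floor (C / w t0))).image
      fun l : List T => (l.map Subtype.val).sum).subset fun s hs => ?_
    obtain ⟨l, hl, hsum⟩ := AddSubmonoid.exists_list_of_mem_closure hs.1
    have hl' : ∀ y ∈ l, y ∈ T := fun y hy => hl y hy
    have h1 := disc_len w T hmin l hl'
    rw [hsum] at h1
    have h2 : (l.length : ℝ) ≤ C / w t0 := by
      rw [le_div_iff₀ hδ]
      linarith [hs.2, mul_comm (w t0) (l.length : ℝ)]
    refine ⟨l.attach.map fun y => ⟨y.1, hl' y.1 y.2⟩, ?_, ?_⟩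
    · show (l.attach.map fun y => (⟨y.1, hl' y.1 y.2⟩ : T)).length ≤ _
      rw [List.length_map, List.length_attach]
      exact Nat.le_floor h2
    · show ((l.attach.map fun y => (⟨y.1, hl' y.1 y.2⟩ : T)).map Subtype.val).sum = s
      rw [List.map_map]
      have h3 : (Subtype.val ∘ fun y : {x // x ∈ l} => (⟨y.1, hl' y.1 y.2⟩ : T)) = Subtype.val := rfl
      rw [h3, List.attach_map_subtype_val, hsum]

end Pool.Agent.LPR
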