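import Mathlib
import Pool.Agent.Helper74.LM.Cor

/-!
PROJECT LPR (MP_d2aba3_al, architect helper26): reduction of tameness in `SL_2` of Laurent
polynomial rings to polynomial matrices.

THEOREM A.  Let `R_j = ℤ[ℤ^j]` and let `w : ℤ^j → ℝ` be an injective homomorphism.  For every
`g ∈ SL_2(R_j)` there is `e ∈ E_2(R_j)` such that for every `N` there is a basis `y` of `ℤ^j`,
positive for `w`, such that all monomials of `e g - 1` are divisible by `(y_1 ⋯ y_j)^N` in the
polynomial ring `ℤ[y_1, …, y_j]`.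

THEOREM B.  Tameness is decidable for all matrices over `R_j` iff it is decidable for the matrices
over `ℤ[x_1, …, x_j]` congruent to `1` modulo `(x_1 ⋯ x_j)^N`.
-/

namespace Pool.Agent.LPR

open Matrix
open Pool.Agent.Helper74.LM (E2 map_E2 up lo wy dg up_mem lo_mem wy_mem dg_mem mul_apply2)

/-- `R_j = ℤ[x_1^{±1}, …, x_j^{±1}]`, the group ring of `ℤ^j`. -/
abbrev Rj (j : ℕ) : Type := AddMonoidAlgebra ℤ (Fin j → ℤ)

/-- The monomial with exponent `m` and coefficient `q`. -/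
noncomputable abbrev mon {j : ℕ} (m : Fin j → ℤ) (q : ℤ) : Rj j := AddMonoidAlgebra.single m q

/-- `Low w x μ c`: all monomials of `x` have `w`-value at least `w μ`, and the coefficient of `x`
at `μ` is `c` (possibly `0`). -/
def Low {j : ℕ} (w : (Fin j → ℤ) →+ ℝ) (x : Rj j) (μ : Fin j → ℤ) (c : ℤ) : Prop :=
  x.coeff μ = c ∧ ∀ m, x.coeff m ≠ 0 → w μ ≤ w m

/-- The same for a vector with two entries. -/
def RLow {j : ℕ} (w : (Fin j → ℤ) →+ ℝ) (r : Fin 2 → Rj j) (μ : Fin j → ℤ) (v : Fin 2 → ℤ) :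
    Prop :=
  ∀ k, Low w (r k) μ (v k)

section rows

variable {R : Type*} [CommRing R]

theorem up_mul_zero (r : R) (g : SpecialLinearGroup (Fin 2) R) (k : Fin 2) :
    (up r * g).1 0 k = g.1 0 k + r * g.1 1 k :=
  (mul_apply2 (up r) g 0 k).trans (by show 1 * g.1 0 k + r * g.1 1 k = _; rw [one_mul])

theorem up_mul_one (r : R) (g : SpecialLinearGroup (Fin 2) R) (k : Fin 2) :
    (up r * g).1 1 k = g.1 1 k :=
  (mul_apply2 (up r) g 1 k).trans (by
    show 0 * g.1 0 k + 1 * g.1 1 k = _; rw [one_mul, zero_mul, zero_add])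

theorem wy_mul_zero (g : SpecialLinearGroup (Fin 2) R) (k : Fin 2) :
    ((wy : SpecialLinearGroup (Fin 2) R) * g).1 0 k = g.1 1 k :=
  (mul_apply2 wy g 0 k).trans (by
    show 0 * g.1 0 k + 1 * g.1 1 k = _; rw [one_mul, zero_mul, zero_add])

theorem wy_mul_one (g : SpecialLinearGroup (Fin 2) R) (k : Fin 2) :
    ((wy : SpecialLinearGroup (Fin 2) R) * g).1 1 k = - g.1 0 k :=
  (mul_apply2 wy g 1 k).trans (by show (-1) * g.1 0 k + 0 * g.1 1 k = _; ring)

theorem dg_mul_zero (u u' : R) (h : u * u' = 1) (g : SpecialLinearGroup (Fin 2) R)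
    (k : Fin 2) : (dg u u' h * g).1 0 k = u * g.1 0 k :=
  (mul_apply2 (dg u u' h) g 0 k).trans (by show u * g.1 0 k + 0 * g.1 1 k = _; ring)

theorem dg_mul_one (u u' : R) (h : u * u' = 1) (g : SpecialLinearGroup (Fin 2) R)
    (k : Fin 2) : (dg u u' h * g).1 1 k = u' * g.1 1 k :=
  (mul_apply2 (dg u u' h) g 1 k).trans (by show 0 * g.1 0 k + u' * g.1 1 k = _; ring)

end rows

end Pool.Agent.LPR
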