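import Mathlib
import Pool.Agent.LPR.Defs

/-!
LPR-Low: calculus of lowest terms.

PLAN.  `coeff` of sums: `AddMonoidAlgebra.coeff_add`, `Finsupp.add_apply`; of products:
`AddMonoidAlgebra.coeff_mul` (see the proof of `Lead.mul` in `Helper74/LM/Basic.lean`, the same
argument works here: if `m + n = μ + ν` with `w μ ≤ w m`, `w ν ≤ w n` then equality holds and
`m = μ`, `n = ν` by injectivity of `w`).  `exists_rlow`: minimise `w` over the union of the two
supports (`Finset.exists_min_image`).  `det_low`: `g 0 0 * g 1 1 - g 0 1 * g 1 0 = 1`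
(`Matrix.det_fin_two`).
-/

namespace Pool.Agent.LPR

open Matrix
open Pool.Agent.Helper74.LM (E2 map_E2 up lo wy dg up_mem lo_mem wy_mem dg_mem mul_apply2)

variable {j : ℕ} {w : (Fin j → ℤ) →+ ℝ}

private theorem low_zero {x : Rj j} {μ m : Fin j → ℤ} {c : ℤ} (hx : Low w x μ c)
    (h : w m < w μ) : x.coeff m = 0 := by
  by_contra h0
  exact (hx.2 m h0).not_gt h

theorem Low.add {x y : Rj j} {μ : Fin j → ℤ} {c d : ℤ} (hx : Low w x μ c) (hy : Low w y μ d) :
    Low w (x + y) μ (c + d) := by
  refine ⟨by rw [AddMonoidAlgebra.coeff_add, Finsupp.add_apply, hx.1, hy.1], fun m hm => ?_⟩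
  by_contra h
  push Not at h
  apply hm
  rw [AddMonoidAlgebra.coeff_add, Finsupp.add_apply, low_zero hx h, low_zero hy h, add_zero]

theorem Low.neg {x : Rj j} {μ : Fin j → ℤ} {c : ℤ} (hx : Low w x μ c) :
    Low w (-x) μ (-c) := by
  refine ⟨by rw [AddMonoidAlgebra.coeff_neg, Finsupp.neg_apply, hx.1], fun m hm => ?_⟩
  by_contra h
  push Not at h
  apply hm
  rw [AddMonoidAlgebra.coeff_neg, Finsupp.neg_apply, low_zero hx h, neg_zero]

theorem Low.sub {x y : Rj j} {μ : Fin j → ℤ} {c d : ℤ} (hx : Low w x μ c) (hy : Low w y μ d) :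
    Low w (x - y) μ (c - d) := by
  rw [sub_eq_add_neg, sub_eq_add_neg]
  exact hx.add hy.neg

theorem Low.mul (hw : Function.Injective w) {x y : Rj j} {μ ν : Fin j → ℤ} {c d : ℤ}
    (hx : Low w x μ c) (hy : Low w y ν d) : Low w (x * y) (μ + ν) (c * d) := by
  have key : ∀ k : Fin j → ℤ, (x * y).coeff k =
      x.coeff.sum fun i a => y.coeff.sum fun l b => if i + l = k then a * b else 0 := by
    intro k
    rw [AddMonoidAlgebra.coeff_mul]
  constructor
  · rw [key, Finsupp.sum, Finset.sum_eq_single μ]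
    · rw [Finsupp.sum, Finset.sum_eq_single ν]
      · simp [hx.1, hy.1]
      · intro l _ hl
        have : μ + l ≠ μ + ν := fun h => hl (add_left_cancel h)
        simp [this]
      · intro hν
        rw [Finsupp.notMem_support_iff] at hν
        simp [hν]
    · intro i hi hiμ
      apply Finset.sum_eq_zero
      intro l hl
      have h1 := hx.2 i (Finsupp.mem_support_iff.1 hi)
      have h2 := hy.2 l (Finsupp.mem_support_iff.1 hl)
      refine if_neg ?_
      intro h
      have h3 : w i + w l = w μ + w ν := by rw [← map_add, ← map_add, h]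
      exact hiμ (hw (by linarith))
    · intro hμ
      rw [Finsupp.notMem_support_iff] at hμ
      simp [hμ]
  · intro k hk
    by_contra h
    push Not at h
    apply hk
    rw [key]
    apply Finset.sum_eq_zero
    intro i hi
    apply Finset.sum_eq_zero
    intro l hl
    have h1 := hx.2 i (Finsupp.mem_support_iff.1 hi)
    have h2 := hy.2 l (Finsupp.mem_support_iff.1 hl)
    refine if_neg ?_
    rintro rfl
    rw [map_add, map_add] at h
    linarith

theorem low_mon (s : Fin j → ℤ) (q : ℤ) : Low w (mon s q) s q := by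
  refine ⟨?_, fun m hm => ?_⟩
  · rw [AddMonoidAlgebra.coeff_single, Finsupp.single_eq_same]
  · rw [AddMonoidAlgebra.coeff_single, Finsupp.single_apply] at hm
    by_cases h : s = m
    · rw [h]
    · rw [if_neg h] at hm
      exact absurd rfl hm

theorem low_one : Low w (1 : Rj j) 0 1 := by
  rw [AddMonoidAlgebra.one_def]
  exact low_mon 0 1

theorem Low.mon_mul {x : Rj j} {μ : Fin j → ℤ} {c : ℤ} (hx : Low w x μ c) (s : Fin j → ℤ)
    (q : ℤ) : Low w (mon s q * x) (s + μ) (q * c) := by
  refine ⟨?_, fun m hm => ?_⟩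
  · have h1 := AddMonoidAlgebra.coeff_mul (mon s q) x (s + μ)
    rw [h1, AddMonoidAlgebra.coeff_single]
    rw [Finsupp.sum_single_index]
    · rw [Finsupp.sum, Finset.sum_eq_single μ]
      · simp [hx.1]
      · intro l _ hl
        have : s + l ≠ s + μ := fun h => hl (add_left_cancel h)
        simp [this]
      · intro hν
        rw [Finsupp.notMem_support_iff] at hν
        simp [hν]
    · simp
  · by_contra h
    push Not at h
    apply hm
    rw [AddMonoidAlgebra.coeff_mul, AddMonoidAlgebra.coeff_single, Finsupp.sum_single_index]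
    · apply Finset.sum_eq_zero
      intro l hl
      have h2 := hx.2 l (Finsupp.mem_support_iff.1 hl)
      refine if_neg ?_
      rintro rfl
      rw [map_add, map_add] at h
      linarith
    · simp

theorem exists_rlow {r : Fin 2 → Rj j} (hr : r ≠ 0) :
    ∃ μ : Fin j → ℤ, ∃ v : Fin 2 → ℤ, v ≠ 0 ∧ RLow w r μ v := by
  classical
  have hne : ((r 0).coeff.support ∪ (r 1).coeff.support).Nonempty := by
    rw [Finset.nonempty_iff_ne_empty]
    intro h
    rw [Finset.union_eq_empty] at h
    apply hr
    funext k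
    have h2 : (r k).coeff = 0 := by
      fin_cases k
      · exact Finsupp.support_eq_empty.1 h.1
      · exact Finsupp.support_eq_empty.1 h.2
    ext m
    rw [h2]
    rfl
  obtain ⟨μ, hμ, hmin⟩ := Finset.exists_min_image _ w hne
  refine ⟨μ, fun k => (r k).coeff μ, ?_, fun k => ⟨rfl, fun m hm => hmin m ?_⟩⟩
  · intro h
    rcases Finset.mem_union.1 hμ with h1 | h1
    · exact Finsupp.mem_support_iff.1 h1 (congrFun h 0)
    · exact Finsupp.mem_support_iff.1 h1 (congrFun h 1)
  · rw [Finset.mem_union, Finsupp.mem_support_iff, Finsupp.mem_support_iff]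
    fin_cases k
    · exact Or.inl hm
    · exact Or.inr hm

/-- A row of a matrix of determinant `1` is not zero. -/
theorem row_ne_zero (g : SpecialLinearGroup (Fin 2) (Rj j)) (a : Fin 2) :
    (fun k => g.1 a k) ≠ 0 := by
  intro h
  have h1 : g.1.det = 0 := Matrix.det_eq_zero_of_row_eq_zero a fun k => congrFun h k
  rw [g.2] at h1
  exact one_ne_zero h1

theorem det_low (hw : Function.Injective w) (g : SpecialLinearGroup (Fin 2) (Rj j))
    {μ ν : Fin j → ℤ} {v u : Fin 2 → ℤ} (h0 : RLow w (fun k => g.1 0 k) μ v)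
    (h1 : RLow w (fun k => g.1 1 k) ν u) :
    Low w (1 : Rj j) (μ + ν) (v 0 * u 1 - v 1 * u 0) := by
  have h2 : (1 : Rj j) = g.1 0 0 * g.1 1 1 - g.1 0 1 * g.1 1 0 := by
    rw [← Matrix.det_fin_two, g.2]
  rw [h2]
  exact (Low.mul hw (h0 0) (h1 1)).sub (Low.mul hw (h0 1) (h1 0))

end Pool.Agent.LPR
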