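import Mathlib
import Pool.Agent.LPR.Low
import Pool.Agent.LPR.Disc

/-!
LPR-Kill: division of a row by another row.
-/

namespace Pool.Agent.LPR

open Matrix
open Pool.Agent.Helper74.LM (E2 map_E2 up lo wy dg up_mem lo_mem wy_mem dg_mem mul_apply2)

variable {j : ℕ} {w : (Fin j → ℤ) →+ ℝ}

private theorem kill_mul {x y : Rj j} {a : Fin j → ℤ} (h : (x * y).coeff a ≠ 0) :
    ∃ d n, x.coeff d ≠ 0 ∧ y.coeff n ≠ 0 ∧ d + n = a := by
  by_contra hcon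
  push Not at hcon
  apply h
  rw [AddMonoidAlgebra.coeff_mul]
  refine Finset.sum_eq_zero fun d hd => Finset.sum_eq_zero fun n hn => ?_
  exact if_neg (hcon d n (Finsupp.mem_support_iff.1 hd) (Finsupp.mem_support_iff.1 hn))

private theorem kill_uniq (hw : Function.Injective w) {r : Fin 2 → Rj j} {μ μ' : Fin j → ℤ}
    {v v' : Fin 2 → ℤ} (hv : v ≠ 0) (hv' : v' ≠ 0) (h : RLow w r μ v) (h' : RLow w r μ' v') :
    μ = μ' ∧ v = v' := by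
  obtain ⟨i, hi⟩ := Function.ne_iff.1 hv
  obtain ⟨i', hi'⟩ := Function.ne_iff.1 hv'
  have h1 : w μ' ≤ w μ := (h' i).2 μ (by rw [(h i).1]; exact hi)
  have h2 : w μ ≤ w μ' := (h i').2 μ' (by rw [(h' i').1]; exact hi')
  have h3 : μ = μ' := hw (le_antisymm h2 h1)
  refine ⟨h3, funext fun k => ?_⟩
  rw [← (h k).1, ← (h' k).1, h3]

theorem kill (hw : Function.Injective w) (r₁ r₂ : Fin 2 → Rj j) {μ₂ : Fin j → ℤ}
    {v₂ : Fin 2 → ℤ} (h₂ : RLow w r₂ μ₂ v₂) (hv₂ : v₂ ≠ 0) (C : ℝ) :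
    ∃ f : Rj j, ∀ (μ : Fin j → ℤ) (v : Fin 2 → ℤ), v ≠ 0 →
      RLow w (fun k => r₁ k + f * r₂ k) μ v → w μ ≤ C → ∀ q : ℤ, v ≠ q • v₂ := by
  classical
  by_contra hcon
  push Not at hcon
  obtain ⟨k, hk⟩ := Function.ne_iff.1 hv₂
  obtain ⟨T, hT⟩ : ∃ T : Finset (Fin j → ℤ), T = ((r₂ k).coeff.support.erase μ₂).image fun n => n - μ₂ :=
    ⟨_, rfl⟩
  have hTw : ∀ t ∈ T, 0 < w t := by
    intro t ht
    rw [hT, Finset.mem_image] at ht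
    obtain ⟨n, hn, rfl⟩ := ht
    obtain ⟨hn1, hn2⟩ := Finset.mem_erase.1 hn
    have h1 := (h₂ k).2 n (Finsupp.mem_support_iff.1 hn2)
    rw [map_sub, sub_pos]
    exact lt_of_le_of_ne h1 fun h => hn1 (hw h).symm
  obtain ⟨S, hS⟩ : ∃ S : AddSubmonoid (Fin j → ℤ), S = AddSubmonoid.closure (T : Set (Fin j → ℤ)) := ⟨_, rfl⟩
  obtain ⟨A₀, hA₀⟩ : ∃ A₀ : Set (Fin j → ℤ), A₀ = {a | ∃ m ∈ (r₁ k).coeff.support, ∃ s ∈ S, a = m + s} :=
    ⟨_, rfl⟩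
  have hadd : ∀ a ∈ A₀, ∀ s ∈ S, a + s ∈ A₀ := by
    intro a ha s hs
    rw [hA₀] at ha ⊢
    obtain ⟨m, hm, s', hs', rfl⟩ := ha
    exact ⟨m, hm, s' + s, S.add_mem hs' hs, add_assoc _ _ _⟩
  have hr₂ : ∀ n, (r₂ k).coeff n ≠ 0 → n - μ₂ ∈ S := by
    intro n hn
    by_cases h : n = μ₂
    · rw [h, sub_self]
      exact S.zero_mem
    · rw [hS]
      refine AddSubmonoid.subset_closure (Finset.mem_coe.2 ?_)
      rw [hT]
      exact Finset.mem_image.2 ⟨n, Finset.mem_erase.2 ⟨h, Finsupp.mem_support_iff.2 hn⟩, rfl⟩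
  have hP : ∀ f : Rj j, (∀ d, f.coeff d ≠ 0 → d + μ₂ ∈ A₀) → ∀ a, (r₁ k + f * r₂ k).coeff a ≠ 0 →
      a ∈ A₀ := by
    intro f hf a ha
    rw [AddMonoidAlgebra.coeff_add, Finsupp.add_apply] at ha
    by_cases h1 : (r₁ k).coeff a = 0
    · rw [h1, zero_add] at ha
      obtain ⟨d, n, hd, hn, rfl⟩ := kill_mul ha
      have h2 := hadd _ (hf d hd) _ (hr₂ n hn)
      have h3 : d + μ₂ + (n - μ₂) = d + n := by abel
      rwa [h3] at h2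
    · rw [hA₀]
      exact ⟨a, Finsupp.mem_support_iff.2 h1, 0, S.zero_mem, (add_zero a).symm⟩
  have hfin : {a | a ∈ A₀ ∧ w a ≤ C}.Finite := by
    have h1 : {a | a ∈ A₀ ∧ w a ≤ C} ⊆ ⋃ m ∈ (r₁ k).coeff.support,
        (fun s => m + s) '' {s | s ∈ AddSubmonoid.closure (T : Set (Fin j → ℤ)) ∧ w s ≤ C - w m} := by
      rintro a ⟨ha, hwa⟩
      rw [hA₀] at ha
      obtain ⟨m, hm, s, hs, rfl⟩ := ha
      rw [Set.mem_iUnion₂]
      refine ⟨m, hm, s, ⟨?_, ?_⟩, rfl⟩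
      · rw [← hS]
        exact hs
      · rw [map_add] at hwa
        linarith
    refine Set.Finite.subset (Set.Finite.biUnion (Finset.finite_toSet _) fun m _ => ?_) h1
    exact (finite_low w T hTw (C - w m)).image _
  have hmem : ∀ f : Rj j, (∀ d, f.coeff d ≠ 0 → d + μ₂ ∈ A₀) → ∀ μ v, v ≠ 0 →
      RLow w (fun k => r₁ k + f * r₂ k) μ v → w μ ≤ C → ∀ q : ℤ, v = q • v₂ → μ ∈ A₀ := by
    intro f hf μ v hv hl hC q hq
    refine hP f hf μ ?_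
    rw [(hl k).1, hq]
    have hq0 : q ≠ 0 := by
      rintro rfl
      rw [zero_smul] at hq
      exact hv hq
    rw [Pi.smul_apply, smul_eq_mul]
    exact mul_ne_zero hq0 hk
  obtain ⟨W, hW⟩ : ∃ W : Set (Fin j → ℤ), W = {μ | (μ ∈ A₀ ∧ w μ ≤ C) ∧ ∃ (f : Rj j) (v : Fin 2 → ℤ),
      (∀ d, f.coeff d ≠ 0 → d + μ₂ ∈ A₀) ∧ v ≠ 0 ∧ RLow w (fun k => r₁ k + f * r₂ k) μ v} := ⟨_, rfl⟩
  have hWfin : W.Finite := hfin.subset fun μ hμ => by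
    rw [hW] at hμ
    exact hμ.1
  have hWin : ∀ f : Rj j, (∀ d, f.coeff d ≠ 0 → d + μ₂ ∈ A₀) → ∀ μ v, v ≠ 0 →
      RLow w (fun k => r₁ k + f * r₂ k) μ v → w μ ≤ C → ∀ q : ℤ, v = q • v₂ → μ ∈ W := by
    intro f hf μ v hv hl hC q hq
    rw [hW]
    exact ⟨⟨hmem f hf μ v hv hl hC q hq, hC⟩, f, v, hf, hv, hl⟩
  have hWne : W.Nonempty := by
    obtain ⟨μ, v, hv, hl, hC, q, hq⟩ := hcon 0
    exact ⟨μ, hWin 0 (fun d hd => absurd rfl hd) μ v hv hl hC q hq⟩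
  obtain ⟨μ, hμW, hmax⟩ := Set.exists_max_image W w hWfin hWne
  have hμW' := hμW
  rw [hW] at hμW'
  obtain ⟨⟨hμA, hμC⟩, f, v, hf, hv, hl⟩ := hμW'
  obtain ⟨μ', v', hv', hl', -, q, hq⟩ := hcon f
  obtain ⟨rfl, rfl⟩ := kill_uniq hw hv hv' hl hl'
  obtain ⟨f', hf'⟩ : ∃ f' : Rj j, f' = f - mon (μ - μ₂) q := ⟨_, rfl⟩
  have hPf' : ∀ d, f'.coeff d ≠ 0 → d + μ₂ ∈ A₀ := by
    intro d hd
    by_cases h1 : f.coeff d = 0
    · have h2 : d = μ - μ₂ := by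
        by_contra h2
        apply hd
        rw [hf', AddMonoidAlgebra.coeff_sub, Finsupp.sub_apply, h1, AddMonoidAlgebra.coeff_single,
          Finsupp.single_eq_of_ne h2, sub_zero]
      rw [h2, sub_add_cancel]
      exact hμA
    · exact hf d h1
  have hl0 : RLow w (fun k => r₁ k + f' * r₂ k) μ 0 := by
    intro i
    have h1 := (hl i).sub ((h₂ i).mon_mul (μ - μ₂) q |> fun h => by
      rw [sub_add_cancel] at h
      exact h)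
    have h2 : r₁ i + f * r₂ i - mon (μ - μ₂) q * r₂ i = r₁ i + f' * r₂ i := by
      rw [hf']
      ring
    have h3 : v i - q * v₂ i = 0 := by
      rw [hq, Pi.smul_apply, smul_eq_mul, sub_self]
    rw [h2, h3] at h1
    exact h1
  obtain ⟨ν, u, hu, hlu, hνC, q', hq'⟩ := hcon f'
  have hνW := hWin f' hPf' ν u hu hlu hνC q' hq'
  obtain ⟨i, hi⟩ := Function.ne_iff.1 hu
  have hci : (r₁ i + f' * r₂ i).coeff ν ≠ 0 := by
    rw [(hlu i).1]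
    exact hi
  have h4 : w μ ≤ w ν := (hl0 i).2 ν hci
  have h5 := hmax ν hνW
  have h6 : ν = μ := hw (le_antisymm h5 h4)
  apply hci
  rw [h6, (hl0 i).1]
  rfl

end Pool.Agent.LPR
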