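import Mathlib
import Pool.Agent.LPR.Kill

/-! LPR-Desc: the descent. -/

namespace Pool.Agent.LPR

open Matrix
open Pool.Agent.Helper74.LM (E2 map_E2 up lo wy dg up_mem lo_mem wy_mem dg_mem mul_apply2)

variable {j : ℕ} {w : (Fin j → ℤ) →+ ℝ}

theorem descent (hw : Function.Injective w) (n : ℕ) :
    ∀ (g : SpecialLinearGroup (Fin 2) (Rj j)) (μ : Fin j → ℤ) (v : Fin 2 → ℤ), v ≠ 0 →
      RLow w (fun k => g.1 1 k) μ v → Int.gcd (v 0) (v 1) = n →
      ∃ e ∈ E2 (Rj j), ∀ a b m, ((e * g).1 a b).coeff m ≠ 0 → 0 ≤ w m := by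
  induction n using Nat.strong_induction_on with
  | _ n ih =>
  intro g μ v hv h hn
  obtain ⟨f, hf⟩ := kill hw (fun k => g.1 0 k) (fun k => g.1 1 k) h hv (-w μ)
  have hrow0 : ∀ k, (up f * g).1 0 k = g.1 0 k + f * g.1 1 k := fun k => up_mul_zero f g k
  have hrow1 : ∀ k, (up f * g).1 1 k = g.1 1 k := fun k => up_mul_one f g k
  obtain ⟨g', hg'⟩ : ∃ g', g' = up f * g := ⟨_, rfl⟩
  rw [← hg'] at hrow0 hrow1
  obtain ⟨μ₁, v₁, hv₁, h1⟩ := exists_rlow (w := w) (row_ne_zero g' 0)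
  have h0' : RLow w (fun k => g'.1 1 k) μ v := by
    intro k
    show Low w (g'.1 1 k) μ (v k)
    rw [hrow1]
    exact h k
  have hdet := det_low hw g' h1 h0'
  have hone : (1 : Rj j).coeff 0 = 1 := (low_one (w := w)).1
  have hle : w (μ₁ + μ) ≤ 0 := by
    have := hdet.2 0 (by rw [hone]; exact one_ne_zero)
    rwa [map_zero] at this
  rcases hle.eq_or_lt with heq | hlt
  · have hz : μ₁ + μ = 0 := hw (by rw [heq, map_zero])
    have hh : mon (-μ₁) 1 * mon μ₁ 1 = (1 : Rj j) := by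
      rw [AddMonoidAlgebra.single_mul_single, neg_add_cancel, mul_one]
      rfl
    refine ⟨dg (mon (-μ₁) 1) (mon μ₁ 1) hh * up f, mul_mem (dg_mem _ _ hh) (up_mem f), ?_⟩
    intro a b m
    rw [mul_assoc, ← hg']
    fin_cases a
    · intro hm
      have h2 := (h1 b).mon_mul (-μ₁) 1
      have h3 := h2.2 m (by
        have h4 := dg_mul_zero (mon (-μ₁) 1) (mon μ₁ 1) hh g' b
        rw [← h4]
        exact hm)
      rwa [neg_add_cancel, map_zero] at h3
    · intro hm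
      have h2 := (h0' b).mon_mul μ₁ 1
      have h3 := h2.2 m (by
        have h4 := dg_mul_one (mon (-μ₁) 1) (mon μ₁ 1) hh g' b
        rw [← h4]
        exact hm)
      rwa [hz, map_zero] at h3
  · have hcz : v₁ 0 * v 1 - v₁ 1 * v 0 = 0 := by
      by_contra hne
      rw [← hdet.1] at hne
      have := (low_one (w := w)).2 _ hne
      rw [map_zero] at this
      linarith
    have hn0 : (n : ℤ) ≠ 0 := by
      intro h2
      have h3 : n = 0 := by exact_mod_cast h2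
      rw [h3, Int.gcd_eq_zero_iff] at hn
      apply hv
      funext k
      fin_cases k
      · exact hn.1
      · exact hn.2
    obtain ⟨u0, hu0⟩ : (n : ℤ) ∣ v 0 := hn ▸ Int.gcd_dvd_left _ _
    obtain ⟨u1, hu1⟩ : (n : ℤ) ∣ v 1 := hn ▸ Int.gcd_dvd_right _ _
    have hbez : u0 * Int.gcdA (v 0) (v 1) + u1 * Int.gcdB (v 0) (v 1) = 1 := by
      have h2 := Int.gcd_eq_gcd_ab (v 0) (v 1)
      rw [hn] at h2
      apply mul_left_cancel₀ hn0
      rw [mul_one]
      calc (n : ℤ) * (u0 * Int.gcdA (v 0) (v 1) + u1 * Int.gcdB (v 0) (v 1)) =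
          (n * u0) * Int.gcdA (v 0) (v 1) + (n * u1) * Int.gcdB (v 0) (v 1) := by ring
        _ = n := by rw [← hu0, ← hu1]; exact h2.symm
    obtain ⟨A, hA⟩ : ∃ A, A = Int.gcdA (v 0) (v 1) := ⟨_, rfl⟩
    obtain ⟨B, hB⟩ : ∃ B, B = Int.gcdB (v 0) (v 1) := ⟨_, rfl⟩
    rw [← hA, ← hB] at hbez
    have hcr : v₁ 0 * u1 = v₁ 1 * u0 := by
      apply mul_left_cancel₀ hn0
      have h2 : v₁ 0 * (n * u1) - v₁ 1 * (n * u0) = 0 := by rw [← hu0, ← hu1]; exact hcz
      linarith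
    obtain ⟨c, hc⟩ : ∃ c, c = A * v₁ 0 + B * v₁ 1 := ⟨_, rfl⟩
    have hc0 : c * u0 = v₁ 0 := by
      calc c * u0 = A * v₁ 0 * u0 + B * (v₁ 1 * u0) := by rw [hc]; ring
        _ = (u0 * A + u1 * B) * v₁ 0 := by rw [← hcr]; ring
        _ = v₁ 0 := by rw [hbez, one_mul]
    have hc1 : c * u1 = v₁ 1 := by
      calc c * u1 = A * (v₁ 0 * u1) + B * v₁ 1 * u1 := by rw [hc]; ring
        _ = (u0 * A + u1 * B) * v₁ 1 := by rw [hcr]; ring
        _ = v₁ 1 := by rw [hbez, one_mul]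
    have hnm : ∀ q : ℤ, v₁ ≠ q • v := by
      refine hf μ₁ v₁ hv₁ ?_ ?_
      · intro k
        show Low w (g.1 0 k + f * g.1 1 k) μ₁ (v₁ k)
        rw [← hrow0]
        exact h1 k
      · rw [map_add] at hle
        linarith
    have hdm : (n : ℤ) * (c / n) + c % n = c := Int.mul_ediv_add_emod c n
    obtain ⟨q, hq⟩ : ∃ q, q = c / (n : ℤ) := ⟨_, rfl⟩
    obtain ⟨ρ, hρ⟩ : ∃ ρ, ρ = c % (n : ℤ) := ⟨_, rfl⟩
    rw [← hq, ← hρ] at hdm
    have hρ0 : 0 ≤ ρ := by rw [hρ]; exact Int.emod_nonneg _ hn0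
    have hρn : ρ < n := by
      rw [hρ]
      refine Int.emod_lt_of_pos _ ?_
      have : (0 : ℤ) ≤ n := Int.natCast_nonneg n
      omega
    have hρne : ρ ≠ 0 := by
      intro h2
      rw [h2, add_zero] at hdm
      refine hnm q ?_
      funext k
      fin_cases k
      · show v₁ 0 = q * v 0
        rw [← hc0, ← hdm, hu0]
        ring
      · show v₁ 1 = q * v 1
        rw [← hc1, ← hdm, hu1]
        ring
    have hv0'' : -(v₁ 0 + -q * v 0) = -ρ * u0 := by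
      rw [← hc0, ← hdm, hu0]
      ring
    have hv1'' : -(v₁ 1 + -q * v 1) = -ρ * u1 := by
      rw [← hc1, ← hdm, hu1]
      ring
    have hgcd : Int.gcd (-(v₁ 0 + -q * v 0)) (-(v₁ 1 + -q * v 1)) = ρ.natAbs := by
      have h2 : Int.gcd u0 u1 = 1 := Int.isCoprime_iff_gcd_eq_one.1 ⟨A, B, by linarith⟩
      rw [hv0'', hv1'', Int.gcd_mul_left, h2, mul_one, Int.natAbs_neg]
    have hlt' : ρ.natAbs < n := by omega
    obtain ⟨e, he, hee⟩ := ih ρ.natAbs hlt'
      ((wy : SpecialLinearGroup (Fin 2) (Rj j)) * (up (mon (μ₁ - μ) (-q)) * g')) μ₁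
      (fun k => -(v₁ k + -q * v k)) (by
        intro h2
        have h3 : -(v₁ 0 + -q * v 0) = 0 := congrFun h2 0
        have h4 : -(v₁ 1 + -q * v 1) = 0 := congrFun h2 1
        rw [h3, h4, Int.gcd_zero_left] at hgcd
        omega) (by
        intro k
        show Low w (((wy : SpecialLinearGroup (Fin 2) (Rj j)) *
          (up (mon (μ₁ - μ) (-q)) * g')).1 1 k) μ₁ (-(v₁ k + -q * v k))
        rw [wy_mul_one, up_mul_zero]
        have h2 := (h0' k).mon_mul (μ₁ - μ) (-q)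
        rw [sub_add_cancel] at h2
        exact ((h1 k).add h2).neg) hgcd
    refine ⟨e * wy * up (mon (μ₁ - μ) (-q)) * up f,
      mul_mem (mul_mem (mul_mem he wy_mem) (up_mem _)) (up_mem _), ?_⟩
    have h5 : e * wy * up (mon (μ₁ - μ) (-q)) * up f * g =
        e * (wy * (up (mon (μ₁ - μ) (-q)) * g')) := by
      rw [hg']
      simp only [mul_assoc]
    rw [h5]
    exact hee

theorem descent' (hw : Function.Injective w) (g : SpecialLinearGroup (Fin 2) (Rj j)) :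
    ∃ e ∈ E2 (Rj j), ∀ a b m, ((e * g).1 a b).coeff m ≠ 0 → 0 ≤ w m := by
  obtain ⟨μ, v, hv, h⟩ := exists_rlow (w := w) (row_ne_zero g 1)
  exact descent hw _ g μ v hv h rfl

end Pool.Agent.LPR
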