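import Mathlib
import Pool.Agent.LPR.Defs
import Pool.Agent.TAM.Four

/-!
LPR-JOne: `SL_2(R_1) = E_2(R_1)`.
-/

namespace Pool.Agent.LPR

open Matrix
open Pool.Agent.Helper74.LM (E2 map_E2 up lo wy dg up_mem lo_mem wy_mem dg_mem mul_apply2)

private theorem mem_E2_laurent (g : SpecialLinearGroup (Fin 2) (LaurentPolynomial ℤ)) :
    g ∈ E2 (LaurentPolynomial ℤ) := by
  have h : g ∈ (⊤ : Subgroup (SpecialLinearGroup (Fin 2) (LaurentPolynomial ℤ))) := trivial
  rw [← Pool.Agent.TAM.closure_four] at h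
  refine (Subgroup.closure_le _).2 ?_ h
  rintro x (hx | hx | hx | hx)
  · exact Subgroup.subset_closure ⟨1, Or.inl hx⟩
  · exact Subgroup.subset_closure ⟨_, Or.inl hx⟩
  · exact Subgroup.subset_closure ⟨1, Or.inr hx⟩
  · exact Subgroup.subset_closure ⟨_, Or.inr hx⟩

private def eOne : ℤ ≃+ (Fin 1 → ℤ) := (AddEquiv.funUnique (Fin 1) ℤ).symm

theorem mem_E2_one (g : SpecialLinearGroup (Fin 2) (Rj 1)) : g ∈ E2 (Rj 1) := by
  let φ : LaurentPolynomial ℤ ≃+* Rj 1 := AddMonoidAlgebra.mapDomainRingEquiv ℤ eOne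
  have h1 := mem_E2_laurent (SpecialLinearGroup.map (φ.symm : Rj 1 →+* LaurentPolynomial ℤ) g)
  have h2 := map_E2 (φ : LaurentPolynomial ℤ →+* Rj 1) h1
  have h3 : SpecialLinearGroup.map (φ : LaurentPolynomial ℤ →+* Rj 1)
      (SpecialLinearGroup.map (φ.symm : Rj 1 →+* LaurentPolynomial ℤ) g) = g := by
    apply Subtype.ext
    refine Matrix.ext fun a b => ?_
    show φ (φ.symm (g.1 a b)) = g.1 a b
    exact φ.apply_symm_apply _
  rw [h3] at h2
  exact h2

end Pool.Agent.LPR
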