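import Mathlib
import Pool.Agent.LPR.Defs

/-!
LPR-Elem: `SL_2(ℤ) = E_2(ℤ)`.

`SL_2(ℤ)` is generated by `S = wy⁻¹` and `T = up 1`.
-/

namespace Pool.Agent.LPR

open Matrix
open Pool.Agent.Helper74.LM (E2 map_E2 up lo wy dg up_mem lo_mem wy_mem dg_mem mul_apply2)

/-- `SL_2(ℤ) = E_2(ℤ)`. -/
theorem sl2z (g : SpecialLinearGroup (Fin 2) ℤ) : g ∈ E2 ℤ := by
  have h1 : g ∈ Subgroup.closure {ModularGroup.S, ModularGroup.T} := by
    rw [_root_.SpecialLinearGroup.SL2Z_generators]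
    exact Subgroup.mem_top g
  refine (Subgroup.closure_le (E2 ℤ)).2 ?_ h1
  intro s hs
  rcases hs with rfl | hs
  · have h2 : (ModularGroup.S : SpecialLinearGroup (Fin 2) ℤ) = wy⁻¹ := by
      rw [eq_inv_iff_mul_eq_one]
      apply Subtype.ext
      show !![0, -1; 1, 0] * !![0, 1; -1, 0] = (1 : Matrix (Fin 2) (Fin 2) ℤ)
      rw [Matrix.mul_fin_two, Matrix.one_fin_two]
      norm_num
    rw [h2]
    exact inv_mem wy_mem
  · rw [Set.mem_singleton_iff.1 hs]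
    exact up_mem 1

end Pool.Agent.LPR
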