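import Mathlib
import Pool.Agent.LPR.Low
import Pool.Agent.LPR.Elem

/-!
LPR-Norm: normalisation of the constant term.

PLAN.  Let `g` have all exponents of `w`-value `≥ 0` and let `g₀ a b = (g.1 a b).coeff 0`, an
integer matrix.  `RLow w (row a of g) 0 (g₀ a)` holds, so `det_low` gives
`Low w 1 (0 + 0) (det g₀)`, i.e. `det g₀ = (1 : Rj j).coeff 0 = 1`.  Let `e₀ = ⟨g₀, _⟩⁻¹` in
`SL_2(ℤ)`, `e = SpecialLinearGroup.map (algebraMap ℤ (Rj j)) e₀` (or
`Int.castRingHom`), `e ∈ E2 (Rj j)` by `sl2z` and `map_E2`.  The entries of `e * g` are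
integer combinations of entries of `g` (`mul_apply2`), their exponents have `w`-value `≥ 0`, and
their coefficients at `0` form `e₀ * g₀ = 1`.  So the coefficient of `(e g) a b - 1 a b` at `0`
vanishes; if its coefficient at `m` is not `0` then `m ≠ 0`, `0 ≤ w m`, hence `0 < w m` as `w` is
injective (`w m = 0 = w 0` would give `m = 0`).
-/

namespace Pool.Agent.LPR

open Matrix
open Pool.Agent.Helper74.LM (E2 map_E2 up lo wy dg up_mem lo_mem wy_mem dg_mem mul_apply2)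

variable {j : ℕ} {w : (Fin j → ℤ) →+ ℝ}

theorem norm_const (hw : Function.Injective w) (g : SpecialLinearGroup (Fin 2) (Rj j))
    (hg : ∀ a b m, (g.1 a b).coeff m ≠ 0 → 0 ≤ w m) :
    ∃ e ∈ E2 (Rj j), ∀ a b m,
      ((e * g).1 a b - (1 : Matrix (Fin 2) (Fin 2) (Rj j)) a b).coeff m ≠ 0 → 0 < w m := by
  obtain ⟨g₀, hg₀⟩ : ∃ g₀ : Matrix (Fin 2) (Fin 2) ℤ, g₀ = fun a b => (g.1 a b).coeff 0 := ⟨_, rfl⟩
  have hlow : ∀ a b, Low w (g.1 a b) 0 (g₀ a b) := by
    intro a b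
    refine ⟨by rw [hg₀], fun m hm => ?_⟩
    rw [map_zero]
    exact hg a b m hm
  have hdet : g₀.det = 1 := by
    rw [Matrix.det_fin_two]
    have h1 := det_low hw g (fun k => hlow 0 k) (fun k => hlow 1 k)
    have h2 : Low w (1 : Rj j) 0 1 := low_one
    have h3 := h1.1
    rw [add_zero, h2.1] at h3
    exact h3.symm
  obtain ⟨G, hG⟩ : ∃ G : SpecialLinearGroup (Fin 2) ℤ, G.1 = g₀ := ⟨⟨g₀, hdet⟩, rfl⟩
  obtain ⟨e₀, he₀⟩ : ∃ e₀ : SpecialLinearGroup (Fin 2) ℤ, e₀ = G⁻¹ := ⟨_, rfl⟩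
  have hmul : ∀ a b, e₀.1 a 0 * g₀ 0 b + e₀.1 a 1 * g₀ 1 b = (1 : Matrix (Fin 2) (Fin 2) ℤ) a b := by
    intro a b
    have h1 : e₀ * G = 1 := by
      rw [he₀, inv_mul_cancel]
    have h2 := congrArg (fun x : SpecialLinearGroup (Fin 2) ℤ => x.1 a b) h1
    have h3 := mul_apply2 e₀ G a b
    rw [← hG]
    exact h3.symm.trans h2
  have hone : ∀ a b, Low w ((1 : Matrix (Fin 2) (Fin 2) (Rj j)) a b) 0
      ((1 : Matrix (Fin 2) (Fin 2) ℤ) a b) := by
    intro a b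
    by_cases h : a = b
    · subst h
      rw [Matrix.one_apply_eq, Matrix.one_apply_eq]
      exact low_one
    · rw [Matrix.one_apply_ne h, Matrix.one_apply_ne h]
      exact ⟨rfl, fun m hm => absurd rfl hm⟩
  refine ⟨SpecialLinearGroup.map (AddMonoidAlgebra.singleZeroRingHom : ℤ →+* Rj j) e₀,
    map_E2 _ (sl2z e₀), fun a b m hm => ?_⟩
  have h1 : ∀ c, Low w ((SpecialLinearGroup.map (AddMonoidAlgebra.singleZeroRingHom : ℤ →+* Rj j) e₀).1 a c *
      g.1 c b) 0 (e₀.1 a c * g₀ c b) := by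
    intro c
    have h2 := (hlow c b).mon_mul 0 (e₀.1 a c)
    rw [add_zero] at h2
    exact h2
  have h2 : Low w ((SpecialLinearGroup.map (AddMonoidAlgebra.singleZeroRingHom : ℤ →+* Rj j) e₀ * g).1 a b)
      0 ((1 : Matrix (Fin 2) (Fin 2) ℤ) a b) := by
    rw [← hmul a b]
    have h3 := (h1 0).add (h1 1)
    have h4 := mul_apply2 (SpecialLinearGroup.map (AddMonoidAlgebra.singleZeroRingHom : ℤ →+* Rj j) e₀) g a b
    rw [← h4] at h3
    exact h3
  have h3 := h2.sub (hone a b)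
  rw [sub_self] at h3
  have h4 := h3.2 m hm
  rw [map_zero] at h4
  refine lt_of_le_of_ne h4 fun h5 => ?_
  have h6 : m = 0 := hw (by rw [← h5, map_zero])
  rw [h6] at hm
  exact hm h3.1

end Pool.Agent.LPR
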