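import Mathlib
import Pool.Agent.LPR.Desc
import Pool.Agent.LPR.Norm
import Pool.Agent.LPR.Deep
import Pool.Agent.LPR.JOne

/-!
LPR-MainA: Theorem A (up to a tame factor every matrix is polynomial in a positive monomial basis
and congruent to `1` modulo a high power of the product of the basis), and the existence of
injective homomorphisms `ℤ^j → ℝ`.
-/

namespace Pool.Agent.LPR

open Matrix
open Pool.Agent.Helper74.LM (E2 map_E2 up lo wy dg up_mem lo_mem wy_mem dg_mem mul_apply2)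

private theorem one_le_of_ne {j : ℕ} (B : Module.Basis (Fin j) ℤ (Fin j → ℤ)) (m : Fin j → ℤ)
    (hm : m ≠ 0) (h : ∀ k, 0 ≤ B.repr m k) : ∃ k, 1 ≤ B.repr m k := by
  by_contra hcon
  push Not at hcon
  apply hm
  have h1 : B.repr m = 0 := by
    ext k
    have h2 := h k
    have h3 := hcon k
    rw [Finsupp.zero_apply]
    omega
  exact (LinearEquiv.map_eq_zero_iff B.repr).1 h1

private theorem mainA_two {j : ℕ} (hj : 2 ≤ j) (w : (Fin j → ℤ) →+ ℝ)
    (hw : Function.Injective w) (g : SpecialLinearGroup (Fin 2) (Rj j)) :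
    ∃ e ∈ E2 (Rj j), ∀ N : ℕ, ∃ B : Module.Basis (Fin j) ℤ (Fin j → ℤ),
      (∀ i, 0 < w (B i)) ∧
      ∀ a b m, ((e * g).1 a b - (1 : Matrix (Fin 2) (Fin 2) (Rj j)) a b).coeff m ≠ 0 →
        ∀ i, (N : ℤ) ≤ B.repr m i := by
  classical
  obtain ⟨e₁, he₁, h₁⟩ := descent' hw g
  obtain ⟨e₂, he₂, h₂⟩ := norm_const hw (e₁ * g) h₁
  refine ⟨e₂ * e₁, mul_mem he₂ he₁, fun N => ?_⟩
  rw [mul_assoc]
  let F : Finset (Fin j → ℤ) := Finset.univ.biUnion fun a : Fin 2 =>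
    Finset.univ.biUnion fun b : Fin 2 =>
      ((e₂ * (e₁ * g)).1 a b - (1 : Matrix (Fin 2) (Fin 2) (Rj j)) a b).coeff.support
  have hF : ∀ a b m, ((e₂ * (e₁ * g)).1 a b
      - (1 : Matrix (Fin 2) (Fin 2) (Rj j)) a b).coeff m ≠ 0 → m ∈ F := by
    intro a b m hm
    refine Finset.mem_biUnion.2 ⟨a, Finset.mem_univ _, Finset.mem_biUnion.2
      ⟨b, Finset.mem_univ _, ?_⟩⟩
    exact Finsupp.mem_support_iff.2 hm
  have hFpos : ∀ m ∈ F, 0 < w m := by
    intro m hm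
    obtain ⟨a, -, ha⟩ := Finset.mem_biUnion.1 hm
    obtain ⟨b, -, hb⟩ := Finset.mem_biUnion.1 ha
    exact h₂ a b m (Finsupp.mem_support_iff.1 hb)
  obtain ⟨B₀, hB₀⟩ := exists_pos_basis w hw
  obtain ⟨B₁, hB₁, -, hB₁F⟩ := ult w hw B₀ hB₀ F hFpos
  obtain ⟨B, hB, hBN⟩ := deep hj w hw B₁ hB₁ N
  refine ⟨B, hB, fun a b m hm i => ?_⟩
  have hmF := hF a b m hm
  have hm0 : m ≠ 0 := by
    rintro rfl
    have := hFpos 0 hmF
    rw [map_zero] at this
    exact lt_irrefl _ this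
  obtain ⟨k, hk⟩ := one_le_of_ne B₁ m hm0 (hB₁F m hmF)
  rw [repr_trans B₁ B m i]
  have h0 : ∀ l ∈ (Finset.univ : Finset (Fin j)), 0 ≤ B₁.repr m l * B.repr (B₁ l) i := by
    intro l _
    exact mul_nonneg (hB₁F m hmF l) (le_trans (Int.natCast_nonneg N) (hBN l i))
  refine le_trans ?_ (Finset.single_le_sum h0 (Finset.mem_univ k))
  calc (N : ℤ) = 1 * (N : ℤ) := (one_mul _).symm
    _ ≤ B₁.repr m k * B.repr (B₁ k) i :=
      mul_le_mul hk (hBN k i) (Int.natCast_nonneg N) (by omega)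

theorem mainA {j : ℕ} (w : (Fin j → ℤ) →+ ℝ) (hw : Function.Injective w)
    (g : SpecialLinearGroup (Fin 2) (Rj j)) :
    ∃ e ∈ E2 (Rj j), ∀ N : ℕ, ∃ B : Module.Basis (Fin j) ℤ (Fin j → ℤ),
      (∀ i, 0 < w (B i)) ∧
      ∀ a b m, ((e * g).1 a b - (1 : Matrix (Fin 2) (Fin 2) (Rj j)) a b).coeff m ≠ 0 →
        ∀ i, (N : ℤ) ≤ B.repr m i := by
  rcases Nat.lt_or_ge j 2 with hj | hj
  · obtain ⟨B, hB⟩ := exists_pos_basis w hw
    have hcase : j = 0 ∨ j = 1 := by omega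
    rcases hcase with rfl | rfl
    · exact ⟨1, one_mem _, fun N => ⟨B, hB, fun a b m _ i => i.elim0⟩⟩
    · refine ⟨g⁻¹, mem_E2_one g⁻¹, fun N => ⟨B, hB, fun a b m hm i => ?_⟩⟩
      exfalso
      apply hm
      have h1 : (g⁻¹ * g).1 a b = (1 : Matrix (Fin 2) (Fin 2) (Rj 1)) a b := by
        rw [inv_mul_cancel]
        rfl
      rw [h1, sub_self]
      rfl
  · exact mainA_two hj w hw g

/-- There are injective homomorphisms `ℤ^j → ℝ`. -/
theorem exists_w (j : ℕ) : ∃ w : (Fin j → ℤ) →+ ℝ, Function.Injective w := by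
  classical
  obtain ⟨x, hx⟩ : ∃ x : ℝ, Transcendental ℤ x :=
    ⟨_, transcendental_liouvilleNumber (m := 2) le_rfl⟩
  let w : (Fin j → ℤ) →+ ℝ :=
    { toFun := fun m => ∑ i, (m i : ℝ) * x ^ (i : ℕ)
      map_zero' := by simp
      map_add' := fun a b => by
        simp only [Pi.add_apply, Int.cast_add, add_mul, Finset.sum_add_distrib] }
  have hwx : ∀ m, w m = ∑ i, (m i : ℝ) * x ^ (i : ℕ) := fun m => rfl
  refine ⟨w, (injective_iff_map_eq_zero w).2 fun m hm => ?_⟩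
  let p : Polynomial ℤ := ∑ i : Fin j, Polynomial.monomial (i : ℕ) (m i)
  have hp : Polynomial.aeval x p = 0 := by
    rw [← hm, hwx, map_sum]
    refine Finset.sum_congr rfl fun i _ => ?_
    rw [Polynomial.aeval_monomial]
    rfl
  have hp0 : p = 0 := transcendental_iff.1 hx p hp
  funext i
  have h1 : p.coeff (i : ℕ) = m i := by
    show (∑ i : Fin j, Polynomial.monomial (i : ℕ) (m i)).coeff (i : ℕ) = m i
    rw [Polynomial.finsetSum_coeff]
    rw [Finset.sum_eq_single i]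
    · rw [Polynomial.coeff_monomial, if_pos rfl]
    · intro b _ hb
      rw [Polynomial.coeff_monomial, if_neg]
      intro h
      exact hb (Fin.ext h)
    · intro h
      exact absurd (Finset.mem_univ i) h
  rw [← h1, hp0, Polynomial.coeff_zero]
  rfl

end Pool.Agent.LPR
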