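import Mathlib
import Pool.Agent.LPR.Defs

/-!
LPR: codes of matrices over `R_j` (definitions only).
-/

namespace Pool.Agent.LPR

open Matrix
open Pool.Agent.Helper74.LM (E2 map_E2 up lo wy dg up_mem lo_mem wy_mem dg_mem mul_apply2)

/-- Codes of elements of `R_j`: finite lists of integer coefficients together with exponent
vectors in `ℤ^j`. -/
abbrev PCode (j : ℕ) : Type := List (ℤ × (Fin j → ℤ))

/-- The Laurent polynomial with the given code. -/
noncomputable def pval {j : ℕ} (c : PCode j) : Rj j :=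
  (c.map fun p => (AddMonoidAlgebra.single p.2 p.1 : Rj j)).sum

/-- Codes of `2 × 2` matrices over `R_j`: the codes of the entries. -/
abbrev MCode (j : ℕ) : Type := Fin 2 → Fin 2 → PCode j

/-- The matrix with the given code. -/
noncomputable def mval {j : ℕ} (c : MCode j) : Matrix (Fin 2) (Fin 2) (Rj j) :=
  Matrix.of fun a b => pval (c a b)

/-- The matrix `M` is tame. -/
def Tame {j : ℕ} (M : Matrix (Fin 2) (Fin 2) (Rj j)) : Prop :=
  ∃ e ∈ E2 (Rj j), (e : Matrix (Fin 2) (Fin 2) (Rj j)) = M

/-- There is an algorithm which decides tameness of the matrices of determinant `1` over `R_j`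
that satisfy `P`. -/
def TameAlg (j : ℕ) (P : Matrix (Fin 2) (Fin 2) (Rj j) → Prop) : Prop :=
  ∃ f : MCode j → Bool, Computable f ∧
    ∀ c : MCode j, (mval c).det = 1 → P (mval c) → (f c = true ↔ Tame (mval c))

/-- All monomials in the entries of `M - 1` are divisible by `(x_1 ⋯ x_j)^N` in
`ℤ[x_1, …, x_j]`. -/
def Cong {j : ℕ} (N : ℕ) (M : Matrix (Fin 2) (Fin 2) (Rj j)) : Prop :=
  ∀ a b m, (M a b - (1 : Matrix (Fin 2) (Fin 2) (Rj j)) a b).coeff m ≠ 0 → ∀ i, (N : ℤ) ≤ m i

/-- product of codes -/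
def pmul {j : ℕ} (c d : PCode j) : PCode j :=
  c.flatMap fun p => d.map fun q => (p.1 * q.1, p.2 + q.2)

/-- negative of a code -/
def pneg {j : ℕ} (c : PCode j) : PCode j := c.map fun p => (-p.1, p.2)

/-- code of `1` -/
def pone {j : ℕ} : PCode j := [(1, 0)]

/-- code of the identity matrix -/
def mone {j : ℕ} : MCode j := fun a b => if a = b then pone else []

/-- product of codes of matrices -/
def mmul {j : ℕ} (c d : MCode j) : MCode j :=
  fun a b => pmul (c a 0) (d 0 b) ++ pmul (c a 1) (d 1 b)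

/-- code of an elementary matrix -/
def elc {j : ℕ} (x : Bool × PCode j) : MCode j :=
  fun a b => if a = b then pone else if x.1 = true ∧ a = 0 then x.2
    else if x.1 = false ∧ a = 1 then x.2 else []

/-- left multiplication by a word of elementary matrices -/
def word {j : ℕ} (l : List (Bool × PCode j)) (c : MCode j) : MCode j :=
  l.foldr (fun x acc => mmul (elc x) acc) c

/-- the linear map with matrix `B` on exponents -/
def vmul {j : ℕ} (B : Fin j → Fin j → ℤ) (m : Fin j → ℤ) : Fin j → ℤ :=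
  fun i => ((List.finRange j).map fun k => B i k * m k).sum

/-- monomial substitution -/
def tr {j : ℕ} (B : Fin j → Fin j → ℤ) (c : PCode j) : PCode j :=
  c.map fun p => (p.1, vmul B p.2)

/-- coefficient -/
def coef {j : ℕ} (c : PCode j) (m : Fin j → ℤ) : ℤ :=
  (c.map fun p => if p.2 = m then p.1 else 0).sum

/-- code of the determinant -/
def dcode {j : ℕ} (c : MCode j) : PCode j :=
  pmul (c 0 0) (c 1 1) ++ pneg (pmul (c 0 1) (c 1 0))

/-- Certificates: a word, a matrix with its inverse, a code. -/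
abbrev Cert (j : ℕ) : Type :=
  List (Bool × PCode j) × (Fin j → Fin j → ℤ) × (Fin j → Fin j → ℤ) × MCode j

/-- The certificate `z = (l, B, B', d)` is good for `c`: `B B' = 1 = B' B`, the exponents of `d`
are at least `N`, and `1 + d = B (l c)`. -/
def Good {j : ℕ} (N : ℕ) (c : MCode j) (z : Cert j) : Prop :=
  (∀ i k, vmul z.2.1 (fun l => z.2.2.1 l k) i = if i = k then 1 else 0) ∧
  (∀ i k, vmul z.2.2.1 (fun l => z.2.1 l k) i = if i = k then 1 else 0) ∧
  (∀ a b, ∀ p ∈ z.2.2.2 a b, ∀ i, (N : ℤ) ≤ p.2 i) ∧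
  ∀ a b, pval (mone a b ++ z.2.2.2 a b) = pval (tr z.2.1 (word z.1 c a b))

end Pool.Agent.LPR
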