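import Mathlib
import Pool.Agent.LPR.Code

/-! LPR-CodeSem: meaning of the operations on codes. -/

namespace Pool.Agent.LPR

open Matrix
open Pool.Agent.Helper74.LM (E2 map_E2 up lo wy dg up_mem lo_mem wy_mem dg_mem mul_apply2)

variable {j : ℕ}

private theorem cs_cons (x : ℤ × (Fin j → ℤ)) (c : PCode j) :
    pval (x :: c) = AddMonoidAlgebra.single x.2 x.1 + pval c := by
  unfold pval
  rw [List.map_cons, List.sum_cons]

private theorem cs_nil : pval ([] : PCode j) = 0 := rfl

private theorem cs_append (c d : PCode j) : pval (c ++ d) = pval c + pval d := by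
  unfold pval
  rw [List.map_append, List.sum_append]

private theorem cs_mapmul (x : ℤ × (Fin j → ℤ)) (d : PCode j) :
    pval (d.map fun q => (x.1 * q.1, x.2 + q.2)) = AddMonoidAlgebra.single x.2 x.1 * pval d := by
  induction d with
  | nil => rw [List.map_nil, cs_nil, mul_zero]
  | cons q d ih =>
    rw [List.map_cons, cs_cons, ih, cs_cons, mul_add, AddMonoidAlgebra.single_mul_single]

private theorem cs_coef_cons (x : ℤ × (Fin j → ℤ)) (c : PCode j) (m : Fin j → ℤ) :
    coef (x :: c) m = (if x.2 = m then x.1 else 0) + coef c m := by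
  unfold coef
  rw [List.map_cons, List.sum_cons]

private theorem cs_coef (c : PCode j) (m : Fin j → ℤ) : coef c m = (pval c).coeff m := by
  induction c with
  | nil => rfl
  | cons x c ih =>
    rw [cs_coef_cons, cs_cons, ih, AddMonoidAlgebra.coeff_add, Finsupp.add_apply,
      AddMonoidAlgebra.coeff_single, Finsupp.single_apply]

private theorem cs_coef_ne (c : PCode j) (m : Fin j → ℤ) (h : ∀ p ∈ c, p.2 ≠ m) : coef c m = 0 := by
  induction c with
  | nil => rfl
  | cons x c ih =>
    rw [cs_coef_cons, if_neg (h x List.mem_cons_self), zero_add]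
    exact ih fun p hp => h p (List.mem_cons_of_mem _ hp)

theorem pval_append (c d : PCode j) : pval (c ++ d) = pval c + pval d := by
  exact cs_append c d

theorem pval_pneg (c : PCode j) : pval (pneg c) = - pval c := by
  induction c with
  | nil => exact neg_zero.symm
  | cons x c ih =>
    show pval ((-x.1, x.2) :: pneg c) = _
    rw [cs_cons, ih, cs_cons, neg_add, AddMonoidAlgebra.single_neg]

theorem pval_pmul (c d : PCode j) : pval (pmul c d) = pval c * pval d := by
  induction c with
  | nil => exact (zero_mul _).symm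
  | cons x c ih =>
    show pval ((d.map fun q => (x.1 * q.1, x.2 + q.2)) ++ pmul c d) = _
    rw [cs_append, ih, cs_mapmul, cs_cons, add_mul]

theorem pval_pone : pval (pone : PCode j) = 1 := by
  unfold pone
  rw [cs_cons, cs_nil, add_zero]
  rfl

theorem pval_nil : pval ([] : PCode j) = 0 := by
  rfl

theorem mval_mone : mval (mone : MCode j) = 1 := by
  ext a b : 1
  show pval (if a = b then pone else []) = _
  rw [Matrix.one_apply]
  split_ifs with h
  · unfold pone
    rw [cs_cons, cs_nil, add_zero]
    rfl
  · rfl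

theorem mval_mmul (c d : MCode j) : mval (mmul c d) = mval c * mval d := by
  ext a b : 1
  rw [Matrix.mul_apply, Fin.sum_univ_two]
  show pval (pmul (c a 0) (d 0 b) ++ pmul (c a 1) (d 1 b)) = _
  rw [cs_append, pval_pmul, pval_pmul]
  rfl

theorem pval_dcode (c : MCode j) : pval (dcode c) = (mval c).det := by
  rw [Matrix.det_fin_two]
  unfold dcode
  rw [cs_append, pval_pneg, pval_pmul, pval_pmul, ← sub_eq_add_neg]
  rfl

theorem coef_eq (c : PCode j) (m : Fin j → ℤ) : coef c m = (pval c).coeff m := by
  exact cs_coef c m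

theorem pval_eq_iff (c d : PCode j) :
    pval c = pval d ↔ ∀ p ∈ c ++ d, coef c p.2 = coef d p.2 := by
  constructor
  · intro h p _
    rw [cs_coef, cs_coef, h]
  · intro h
    apply AddMonoidAlgebra.coeff_injective
    ext m
    rw [← cs_coef, ← cs_coef]
    by_cases hm : ∃ p ∈ c ++ d, p.2 = m
    · obtain ⟨p, hp, rfl⟩ := hm
      exact h p hp
    · rw [cs_coef_ne c m fun p hp hpm => hm ⟨p, List.mem_append_left _ hp, hpm⟩,
        cs_coef_ne d m fun p hp hpm => hm ⟨p, List.mem_append_right _ hp, hpm⟩]

theorem exists_code (x : Rj j) :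
    ∃ c : PCode j, pval c = x ∧ ∀ p ∈ c, x.coeff p.2 ≠ 0 := by
  refine ⟨x.coeff.support.toList.map fun m => (x.coeff m, m), ?_, ?_⟩
  · have h : x.coeff.sum AddMonoidAlgebra.single = x := AddMonoidAlgebra.sum_coeff_single x
    rw [← h]
    unfold pval
    rw [List.map_map]
    conv_lhs => rw [h]
    exact Finset.sum_map_toList x.coeff.support fun m => AddMonoidAlgebra.single m (x.coeff m)
  · intro p hp
    obtain ⟨m, hm, rfl⟩ := List.mem_map.1 hp
    exact Finsupp.mem_support_iff.1 (Finset.mem_toList.1 hm)

theorem mval_elc_true (c : PCode j) :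
    mval (elc (true, c)) = (up (pval c) : SpecialLinearGroup (Fin 2) (Rj j)).1 := by
  ext a b : 1
  fin_cases a <;> fin_cases b
  · show pval pone = 1
    exact pval_pone
  · rfl
  · rfl
  · show pval pone = 1
    exact pval_pone

theorem mval_elc_false (c : PCode j) :
    mval (elc (false, c)) = (lo (pval c) : SpecialLinearGroup (Fin 2) (Rj j)).1 := by
  ext a b : 1
  fin_cases a <;> fin_cases b
  · show pval pone = 1
    exact pval_pone
  · rfl
  · rfl
  · show pval pone = 1
    exact pval_pone

end Pool.Agent.LPR
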