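import Mathlib
import Pool.Agent.LPR.CodeSem

/-!
LPR-WordSem: words and substitutions.
-/

namespace Pool.Agent.LPR

open Matrix
open Pool.Agent.Helper74.LM (E2 map_E2 up lo wy dg up_mem lo_mem wy_mem dg_mem mul_apply2)

variable {j : ℕ}

theorem word_E2 (l : List (Bool × PCode j)) :
    ∃ e ∈ E2 (Rj j), ∀ c : MCode j, mval (word l c) = e.1 * mval c := by
  induction l with
  | nil => exact ⟨1, one_mem _, fun c => (one_mul (mval c)).symm⟩
  | cons x l ih =>
    obtain ⟨e, he, h⟩ := ih
    obtain ⟨b, p⟩ := x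
    cases b
    · refine ⟨lo (pval p) * e, mul_mem (lo_mem _) he, fun c => ?_⟩
      show mval (mmul (elc (false, p)) (word l c)) = (lo (pval p)).1 * e.1 * mval c
      rw [mval_mmul, mval_elc_false, h, Matrix.mul_assoc]
    · refine ⟨up (pval p) * e, mul_mem (up_mem _) he, fun c => ?_⟩
      show mval (mmul (elc (true, p)) (word l c)) = (up (pval p)).1 * e.1 * mval c
      rw [mval_mmul, mval_elc_true, h, Matrix.mul_assoc]

private theorem wsm_up (r : Rj j) :
    ∃ l : List (Bool × PCode j), ∀ c : MCode j, mval (word l c) =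
      (up r : SpecialLinearGroup (Fin 2) (Rj j)).1 * mval c := by
  obtain ⟨d, hd, -⟩ := exists_code r
  refine ⟨[(true, d)], fun c => ?_⟩
  show mval (mmul (elc (true, d)) c) = _
  rw [mval_mmul, mval_elc_true, hd]

private theorem wsm_lo (r : Rj j) :
    ∃ l : List (Bool × PCode j), ∀ c : MCode j, mval (word l c) =
      (lo r : SpecialLinearGroup (Fin 2) (Rj j)).1 * mval c := by
  obtain ⟨d, hd, -⟩ := exists_code r
  refine ⟨[(false, d)], fun c => ?_⟩
  show mval (mmul (elc (false, d)) c) = _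
  rw [mval_mmul, mval_elc_false, hd]

private theorem wsm_inv (r : Rj j) :
    (up r : SpecialLinearGroup (Fin 2) (Rj j))⁻¹ = up (-r) ∧
      (lo r : SpecialLinearGroup (Fin 2) (Rj j))⁻¹ = lo (-r) := by
  constructor
  · rw [inv_eq_iff_mul_eq_one]
    ext a b
    fin_cases a <;> fin_cases b <;> simp [mul_apply2, up]
  · rw [inv_eq_iff_mul_eq_one]
    ext a b
    fin_cases a <;> fin_cases b <;> simp [mul_apply2, lo]

private theorem wsm_word_append (l l' : List (Bool × PCode j)) (c : MCode j) :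
    word (l ++ l') c = word l (word l' c) := by
  simp [word, List.foldr_append]

theorem E2_word {e : SpecialLinearGroup (Fin 2) (Rj j)} (he : e ∈ E2 (Rj j)) :
    ∃ l : List (Bool × PCode j), ∀ c : MCode j, mval (word l c) = e.1 * mval c := by
  have hmain : (∃ l : List (Bool × PCode j), ∀ c : MCode j, mval (word l c) = e.1 * mval c) ∧
      ∃ l : List (Bool × PCode j), ∀ c : MCode j, mval (word l c) = (e⁻¹).1 * mval c := by
    refine Subgroup.closure_induction (p := fun e _ =>
      (∃ l : List (Bool × PCode j), ∀ c : MCode j, mval (word l c) = e.1 * mval c) ∧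
      ∃ l : List (Bool × PCode j), ∀ c : MCode j, mval (word l c) = (e⁻¹).1 * mval c)
      ?_ ?_ ?_ ?_ he
    · rintro g ⟨r, h | h⟩
      · have hg : g = up r := Subtype.ext h
        rw [hg, (wsm_inv r).1]
        exact ⟨wsm_up r, wsm_up (-r)⟩
      · have hg : g = lo r := Subtype.ext h
        rw [hg, (wsm_inv r).2]
        exact ⟨wsm_lo r, wsm_lo (-r)⟩
    · rw [inv_one]
      exact ⟨⟨[], fun c => (one_mul (mval c)).symm⟩, ⟨[], fun c => (one_mul (mval c)).symm⟩⟩
    · rintro x y - - ⟨⟨l1, h1⟩, ⟨l2, h2⟩⟩ ⟨⟨l3, h3⟩, ⟨l4, h4⟩⟩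
      refine ⟨⟨l1 ++ l3, fun c => ?_⟩, ⟨l4 ++ l2, fun c => ?_⟩⟩
      · rw [wsm_word_append, h1, h3, ← Matrix.mul_assoc]
        rfl
      · rw [wsm_word_append, h4, h2, ← Matrix.mul_assoc, _root_.mul_inv_rev]
        rfl
    · rintro x - ⟨h1, h2⟩
      rw [inv_inv]
      exact ⟨h2, h1⟩
  exact hmain.1

private theorem wsm_vmul (B : Fin j → Fin j → ℤ) (m : Fin j → ℤ) (i : Fin j) :
    vmul B m i = ∑ k, B i k * m k := by
  rw [Fin.sum_univ_def]
  rfl

/-- `vmul B` as an additive homomorphism. -/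
def vhom (B : Fin j → Fin j → ℤ) : (Fin j → ℤ) →+ (Fin j → ℤ) where
  toFun := vmul B
  map_zero' := by
    funext i
    rw [wsm_vmul]
    simp
  map_add' := by
    intro m m'
    funext i
    rw [Pi.add_apply, wsm_vmul, wsm_vmul, wsm_vmul, ← Finset.sum_add_distrib]
    refine Finset.sum_congr rfl fun k _ => ?_
    rw [Pi.add_apply, mul_add]

/-- The substitution `x^m ↦ x^(B m)`. -/
noncomputable def sub (B : Fin j → Fin j → ℤ) : Rj j →+* Rj j :=
  AddMonoidAlgebra.mapDomainRingHom ℤ (vhom B)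

theorem sub_single (B : Fin j → Fin j → ℤ) (m : Fin j → ℤ) (q : ℤ) :
    sub B (AddMonoidAlgebra.single m q) = AddMonoidAlgebra.single (vmul B m) q := by
  unfold sub
  rw [AddMonoidAlgebra.mapDomainRingHom_apply, AddMonoidAlgebra.mapDomain_single]
  rfl

theorem pval_tr (B : Fin j → Fin j → ℤ) (c : PCode j) : pval (tr B c) = sub B (pval c) := by
  unfold pval tr
  rw [List.map_map, map_list_sum, List.map_map]
  congr 1
  refine List.map_congr_left fun p _ => ?_
  exact (sub_single B p.2 p.1).symm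

theorem vmul_vmul {B B' : Fin j → Fin j → ℤ}
    (h : ∀ i k, vmul B (fun l => B' l k) i = if i = k then 1 else 0) (m : Fin j → ℤ) :
    vmul B (vmul B' m) = m := by
  funext i
  have h1 : ∀ k, ∑ l, B i l * B' l k = if i = k then 1 else 0 := by
    intro k
    rw [← h i k, wsm_vmul]
  calc vmul B (vmul B' m) i = ∑ l, B i l * ∑ k, B' l k * m k := by
        rw [wsm_vmul]
        exact Finset.sum_congr rfl fun l _ => by rw [wsm_vmul]
    _ = ∑ k, (∑ l, B i l * B' l k) * m k := by
        simp_rw [Finset.mul_sum, Finset.sum_mul]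
        rw [Finset.sum_comm]
        exact Finset.sum_congr rfl fun k _ => Finset.sum_congr rfl fun l _ => by ring
    _ = m i := by
        simp_rw [h1]
        simp

theorem sub_sub {B B' : Fin j → Fin j → ℤ}
    (h : ∀ i k, vmul B (fun l => B' l k) i = if i = k then 1 else 0) (x : Rj j) :
    sub B (sub B' x) = x := by
  obtain ⟨c, hc, -⟩ := exists_code x
  rw [← hc, ← pval_tr, ← pval_tr]
  congr 1
  unfold tr
  rw [List.map_map]
  conv_rhs => rw [← List.map_id c]
  refine List.map_congr_left fun p _ => ?_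
  show (p.1, vmul B (vmul B' p.2)) = p
  rw [vmul_vmul h]

private theorem wsm_good {N : ℕ} {c : MCode j} {z : Cert j} (h : Good N c z) :
    (mval fun a b => mone a b ++ z.2.2.2 a b) = (mval (word z.1 c)).map (sub z.2.1) := by
  ext a b
  show (pval (mone a b ++ z.2.2.2 a b)).coeff _ = (sub z.2.1 (pval (word z.1 c a b))).coeff _
  rw [h.2.2.2 a b, pval_tr]

private theorem wsm_map {B : Fin j → Fin j → ℤ} {M : Matrix (Fin 2) (Fin 2) (Rj j)} (h : Tame M) :
    Tame (M.map (sub B)) := by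
  obtain ⟨e, he, rfl⟩ := h
  exact ⟨SpecialLinearGroup.map (sub B) e, map_E2 (sub B) he, rfl⟩

private theorem wsm_mul {e : SpecialLinearGroup (Fin 2) (Rj j)} (he : e ∈ E2 (Rj j))
    {M : Matrix (Fin 2) (Fin 2) (Rj j)} : Tame (e.1 * M) ↔ Tame M := by
  constructor
  · rintro ⟨f, hf, hM⟩
    refine ⟨e⁻¹ * f, mul_mem (inv_mem he) hf, ?_⟩
    have h1 : (e⁻¹).1 * e.1 = 1 := by
      have := congrArg Subtype.val (inv_mul_cancel e)
      exact this
    show (e⁻¹).1 * f.1 = M
    rw [show f.1 = e.1 * M from hM, ← Matrix.mul_assoc, h1, Matrix.one_mul]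
  · rintro ⟨f, hf, rfl⟩
    exact ⟨e * f, mul_mem he hf, rfl⟩

/-- A good certificate reduces tameness of `c` to tameness of `1 + d`. -/
theorem good_iff {N : ℕ} {c : MCode j} {z : Cert j} (h : Good N c z) :
    (Tame (mval c) ↔ Tame (mval fun a b => mone a b ++ z.2.2.2 a b)) := by
  obtain ⟨e, he, h1⟩ := word_E2 z.1
  rw [wsm_good h, h1]
  constructor
  · intro h2
    exact wsm_map ((wsm_mul he).2 h2)
  · intro h2
    have h3 := wsm_map (B := z.2.2.1) h2
    rw [Matrix.map_map] at h3
    have h4 : (sub z.2.2.1 : Rj j → Rj j) ∘ (sub z.2.1) = id := by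
      funext x
      exact sub_sub h.2.1 x
    rw [h4, Matrix.map_id] at h3
    exact (wsm_mul he).1 h3

theorem good_det {N : ℕ} {c : MCode j} {z : Cert j} (h : Good N c z)
    (hc : (mval c).det = 1) : (mval fun a b => mone a b ++ z.2.2.2 a b).det = 1 := by
  obtain ⟨e, he, h1⟩ := word_E2 z.1
  rw [wsm_good h, h1]
  have h2 := (RingHom.map_det (sub z.2.1) (e.1 * mval c)).symm
  rw [RingHom.mapMatrix_apply] at h2
  rw [h2, Matrix.det_mul, hc, e.2, one_mul, map_one]

theorem good_cong {N : ℕ} {c : MCode j} {z : Cert j} (h : Good N c z) :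
    Cong N (mval fun a b => mone a b ++ z.2.2.2 a b) := by
  intro a b m hm i
  have h1 : (mval fun a b => mone a b ++ z.2.2.2 a b) a b =
      (1 : Matrix (Fin 2) (Fin 2) (Rj j)) a b + pval (z.2.2.2 a b) := by
    show pval (mone a b ++ z.2.2.2 a b) = _
    rw [pval_append, ← mval_mone]
    rfl
  rw [h1, add_sub_cancel_left, ← coef_eq] at hm
  have h2 : ∃ p ∈ z.2.2.2 a b, p.2 = m := by
    by_contra hcon
    push Not at hcon
    apply hm
    unfold coef
    apply List.sum_eq_zero
    intro q hq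
    obtain ⟨p, hp, rfl⟩ := List.mem_map.1 hq
    exact if_neg (hcon p hp)
  obtain ⟨p, hp, rfl⟩ := h2
  exact h.2.2.1 a b p hp i

end Pool.Agent.LPR
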