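import Mathlib
import Pool.Agent.LPR.WordSem
import Pool.Agent.LPR.MainA

/-!
LPR-CertEx: good certificates exist.
-/

namespace Pool.Agent.LPR

open Matrix
open Pool.Agent.Helper74.LM (E2 map_E2 up lo wy dg up_mem lo_mem wy_mem dg_mem mul_apply2)

variable {j : ℕ}

private theorem cex_vmul (B : Fin j → Fin j → ℤ) (m : Fin j → ℤ) (i : Fin j) :
    vmul B m i = ∑ k, B i k * m k := by
  rw [Fin.sum_univ_def]
  rfl

private theorem cex_repr (Y : Module.Basis (Fin j) ℤ (Fin j → ℤ)) {B : Fin j → Fin j → ℤ}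
    (hB : ∀ i k, B i k = Y.repr (Pi.single k 1) i) (m : Fin j → ℤ) (i : Fin j) :
    vmul B m i = Y.repr m i := by
  have h1 : m = ∑ k, m k • (Pi.single k 1 : Fin j → ℤ) := by
    funext l
    rw [Finset.sum_apply]
    simp [Pi.single_apply]
  rw [cex_vmul]
  conv_rhs => rw [h1]
  rw [map_sum, Finsupp.finsetSum_apply]
  refine Finset.sum_congr rfl fun k _ => ?_
  rw [hB, map_smul, Finsupp.smul_apply, smul_eq_mul, mul_comm]

theorem exists_good (N : ℕ) (c : MCode j) (hc : (mval c).det = 1) : ∃ z : Cert j, Good N c z := by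
  obtain ⟨w, hw⟩ := exists_w j
  obtain ⟨e, he, h⟩ := mainA w hw ⟨mval c, hc⟩
  obtain ⟨Y, -, hY⟩ := h N
  obtain ⟨l, hl⟩ := E2_word he
  obtain ⟨B, hB⟩ : ∃ B : Fin j → Fin j → ℤ, ∀ i k, B i k = Y.repr (Pi.single k 1) i :=
    ⟨fun i k => Y.repr (Pi.single k 1) i, fun _ _ => rfl⟩
  obtain ⟨B', hB'⟩ : ∃ B' : Fin j → Fin j → ℤ, ∀ i k, B' i k = Y k i :=
    ⟨fun i k => Y k i, fun _ _ => rfl⟩
  have h1 : ∀ a b, ∃ d : PCode j, pval d = (mval (word l c)) a b - (1 : Matrix (Fin 2) (Fin 2) (Rj j)) a b ∧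
      ∀ p ∈ d, ∀ i, (N : ℤ) ≤ Y.repr p.2 i := by
    intro a b
    obtain ⟨d, hd, hd'⟩ := exists_code
      ((mval (word l c)) a b - (1 : Matrix (Fin 2) (Fin 2) (Rj j)) a b)
    refine ⟨d, hd, fun p hp i => ?_⟩
    refine hY a b p.2 ?_ i
    have h2 := hd' p hp
    rw [hl c] at h2
    exact h2
  choose d hd hd' using h1
  refine ⟨(l, B, B', fun a b => tr B (d a b)), ?_, ?_, ?_, ?_⟩
  · intro i k
    show vmul B (fun l => B' l k) i = if i = k then 1 else 0
    have h2 : (fun l => B' l k) = Y k := by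
      funext l
      exact hB' l k
    rw [cex_repr Y hB, h2, Module.Basis.repr_self, Finsupp.single_apply]
    by_cases h3 : i = k
    · rw [if_pos h3, if_pos h3.symm]
    · rw [if_neg h3, if_neg fun h4 => h3 h4.symm]
  · intro i k
    show vmul B' (fun l => B l k) i = if i = k then 1 else 0
    have h2 := congrFun (Module.Basis.sum_repr Y (Pi.single k 1 : Fin j → ℤ)) i
    rw [Finset.sum_apply, Pi.single_apply] at h2
    rw [cex_vmul, ← h2]
    refine Finset.sum_congr rfl fun l _ => ?_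
    rw [hB', hB, Pi.smul_apply, smul_eq_mul, mul_comm]
  · intro a b p hp i
    obtain ⟨q, hq, rfl⟩ := List.mem_map.1 hp
    show (N : ℤ) ≤ vmul B q.2 i
    rw [cex_repr Y hB]
    exact hd' a b q hq i
  · intro a b
    show pval (mone a b ++ tr B (d a b)) = pval (tr B (word l c a b))
    have h2 : pval (mone a b : PCode j) = (1 : Matrix (Fin 2) (Fin 2) (Rj j)) a b := by
      rw [← mval_mone]
      rfl
    have h3 : sub B ((1 : Matrix (Fin 2) (Fin 2) (Rj j)) a b) =
        (1 : Matrix (Fin 2) (Fin 2) (Rj j)) a b := by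
      rw [Matrix.one_apply]
      split_ifs
      · exact map_one _
      · exact map_zero _
    rw [pval_append, pval_tr, pval_tr, hd, map_sub, h2, h3, add_sub_cancel]
    rfl

end Pool.Agent.LPR
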