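import Mathlib

/-!
Arithmetic of the integers is primitive recursive (for the `Primcodable` instance coming from the
`Denumerable` structure `Int`, i.e. natural numbers with a sign bit).
-/

namespace Pool.Agent.LPR

private lemma enc_ofNat (n : ℕ) : Encodable.encode (Int.ofNat n) = 2 * n := rfl

private lemma enc_negSucc (n : ℕ) : Encodable.encode (Int.negSucc n) = 2 * n + 1 := rfl

private lemma toNat_eq (z : ℤ) : z.toNat =
    if Encodable.encode z % 2 = 0 then Encodable.encode z / 2 else 0 := by
  cases z with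
  | ofNat n => rw [enc_ofNat]; simp
  | negSucc n => rw [enc_negSucc]; simp [Int.toNat]

private lemma negToNat_eq (z : ℤ) : (-z).toNat =
    if Encodable.encode z % 2 = 0 then 0 else Encodable.encode z / 2 + 1 := by
  cases z with
  | ofNat n => rw [enc_ofNat]; simp
  | negSucc n => rw [enc_negSucc]; simp [Int.neg_negSucc]; omega

private lemma pr_toNat : Primrec Int.toNat := by
  have h : Primrec (fun z : ℤ => if Encodable.encode z % 2 = 0 then Encodable.encode z / 2 else 0) :=
    Primrec.ite
      (Primrec.eq.comp (Primrec.nat_mod.comp Primrec.encode (Primrec.const 2)) (Primrec.const 0))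
      (Primrec.nat_div.comp Primrec.encode (Primrec.const 2)) (Primrec.const 0)
  exact h.of_eq (fun z => (toNat_eq z).symm)

private lemma pr_negToNat : Primrec (fun z : ℤ => (-z).toNat) := by
  have h : Primrec (fun z : ℤ => if Encodable.encode z % 2 = 0 then 0
      else Encodable.encode z / 2 + 1) :=
    Primrec.ite
      (Primrec.eq.comp (Primrec.nat_mod.comp Primrec.encode (Primrec.const 2)) (Primrec.const 0))
      (Primrec.const 0)
      (Primrec.succ.comp (Primrec.nat_div.comp Primrec.encode (Primrec.const 2)))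
  exact h.of_eq (fun z => (negToNat_eq z).symm)

private lemma sub_eq (a b : ℕ) : Denumerable.ofNat ℤ
    (if b ≤ a then 2 * (a - b) else 2 * (b - a - 1) + 1) = (a : ℤ) - b := by
  split_ifs with h
  · have h1 : (2 * (a - b)) = Encodable.encode (Int.ofNat (a - b)) := (enc_ofNat _).symm
    rw [h1, Denumerable.ofNat_encode]
    show ((a - b : ℕ) : ℤ) = _
    push_cast [h]
    ring
  · have h1 : (2 * (b - a - 1) + 1) = Encodable.encode (Int.negSucc (b - a - 1)) :=
      (enc_negSucc _).symm
    rw [h1, Denumerable.ofNat_encode, Int.negSucc_eq]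
    omega

private lemma pr_sub : Primrec₂ (fun a b : ℕ => (a : ℤ) - b) := by
  have h : Primrec (fun p : ℕ × ℕ => Denumerable.ofNat ℤ
      (if p.2 ≤ p.1 then 2 * (p.1 - p.2) else 2 * (p.2 - p.1 - 1) + 1)) := by
    refine (Primrec.ofNat ℤ).comp ?_
    refine Primrec.ite (Primrec.nat_le.comp Primrec.snd Primrec.fst) ?_ ?_
    · exact Primrec.nat_mul.comp (Primrec.const 2) (Primrec.nat_sub.comp Primrec.fst Primrec.snd)
    · exact Primrec.succ.comp (Primrec.nat_mul.comp (Primrec.const 2)
        (Primrec.nat_sub.comp (Primrec.nat_sub.comp Primrec.snd Primrec.fst) (Primrec.const 1)))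
  exact h.of_eq (fun p => sub_eq p.1 p.2)

private lemma int_eq (z : ℤ) : ((z.toNat : ℕ) : ℤ) - ((-z).toNat : ℕ) = z := by
  omega

theorem pr_add : Primrec₂ (fun x y : ℤ => x + y) := by
  have h : Primrec (fun p : ℤ × ℤ => ((p.1.toNat + p.2.toNat : ℕ) : ℤ)
      - (((-p.1).toNat + (-p.2).toNat : ℕ) : ℤ)) :=
    pr_sub.comp
      (Primrec.nat_add.comp (pr_toNat.comp Primrec.fst) (pr_toNat.comp Primrec.snd))
      (Primrec.nat_add.comp (pr_negToNat.comp Primrec.fst) (pr_negToNat.comp Primrec.snd))
  exact h.of_eq (fun p => by push_cast; linarith [int_eq p.1, int_eq p.2])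

theorem pr_mul : Primrec₂ (fun x y : ℤ => x * y) := by
  have h : Primrec (fun p : ℤ × ℤ =>
      ((p.1.toNat * p.2.toNat + (-p.1).toNat * (-p.2).toNat : ℕ) : ℤ)
      - ((p.1.toNat * (-p.2).toNat + (-p.1).toNat * p.2.toNat : ℕ) : ℤ)) :=
    pr_sub.comp
      (Primrec.nat_add.comp
        (Primrec.nat_mul.comp (pr_toNat.comp Primrec.fst) (pr_toNat.comp Primrec.snd))
        (Primrec.nat_mul.comp (pr_negToNat.comp Primrec.fst) (pr_negToNat.comp Primrec.snd)))
      (Primrec.nat_add.comp
        (Primrec.nat_mul.comp (pr_toNat.comp Primrec.fst) (pr_negToNat.comp Primrec.snd))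
        (Primrec.nat_mul.comp (pr_negToNat.comp Primrec.fst) (pr_toNat.comp Primrec.snd)))
  refine h.of_eq (fun p => ?_)
  have e1 := int_eq p.1
  have e2 := int_eq p.2
  have : p.1 * p.2 = (((p.1.toNat : ℕ) : ℤ) - ((-p.1).toNat : ℕ))
      * (((p.2.toNat : ℕ) : ℤ) - ((-p.2).toNat : ℕ)) := by rw [e1, e2]
  show _ = p.1 * p.2
  rw [this]
  push_cast
  ring

theorem pr_neg : Primrec (fun x : ℤ => -x) := by
  have h : Primrec (fun x : ℤ => (((-x).toNat : ℕ) : ℤ) - ((x.toNat : ℕ) : ℤ)) :=
    pr_sub.comp pr_negToNat pr_toNat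
  exact h.of_eq (fun x => by have := int_eq x; linarith)

theorem pr_le : PrimrecRel (fun x y : ℤ => x ≤ y) := by
  have h : PrimrecPred (fun p : ℤ × ℤ => p.1.toNat + (-p.2).toNat ≤ p.2.toNat + (-p.1).toNat) :=
    Primrec.nat_le.comp
      (Primrec.nat_add.comp (pr_toNat.comp Primrec.fst) (pr_negToNat.comp Primrec.snd))
      (Primrec.nat_add.comp (pr_toNat.comp Primrec.snd) (pr_negToNat.comp Primrec.fst))
  refine h.of_eq (fun p => ?_)
  have e1 := int_eq p.1
  have e2 := int_eq p.2
  constructor
  · intro h; zify at h; linarith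
  · intro h; zify; linarith

theorem pr_sum : Primrec (fun l : List ℤ => l.sum) := by
  have h : Primrec (fun l : List ℤ => l.foldr (fun x y : ℤ => x + y) 0) :=
    Primrec.list_foldr (f := fun l : List ℤ => l) (g := fun _ => (0 : ℤ))
      (h := fun _ p => p.1 + p.2) Primrec.id (Primrec.const 0)
      ((pr_add.comp (Primrec.fst.comp Primrec.snd) (Primrec.snd.comp Primrec.snd)).to₂)
  exact h.of_eq (fun l => by rw [List.sum_eq_foldr])

end Pool.Agent.LPR
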