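import Mathlib
import Pool.Agent.LPR.Code
import Pool.Agent.LPR.IntPR

/-!
LPR-CodePR: the operations on codes are primitive recursive.
-/

namespace Pool.Agent.LPR

variable {j : ℕ}

private theorem fin_of {α σ : Type*} [Primcodable α] [Primcodable σ] {n : ℕ} {f : α → Fin n → σ}
    (h : ∀ i, Primrec fun a => f a i) : Primrec f := by
  have h1 : Primrec₂ (fun (i : Fin n) (a : α) => f a i) := Primrec.fin_curry₁.2 h
  exact Primrec.fin_curry.2 (Primrec₂.swap h1)

private theorem app {α σ : Type*} [Primcodable α] [Primcodable σ] {n : ℕ} {f : α → Fin n → σ}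
    (h : Primrec f) (i : Fin n) : Primrec fun a => f a i :=
  Primrec.fin_app.comp h (Primrec.const i)

theorem pr_vadd : Primrec₂ (fun m n : Fin j → ℤ => m + n) :=
  fin_of fun i => pr_add.comp (app Primrec.fst i) (app Primrec.snd i)

theorem pr_pmul : Primrec₂ (pmul : PCode j → PCode j → PCode j) := by
  refine Primrec.list_flatMap Primrec.fst
    (g := fun (x : PCode j × PCode j) (p : ℤ × (Fin j → ℤ)) =>
      x.2.map fun q => (p.1 * q.1, p.2 + q.2)) ?_
  refine Primrec.list_map (Primrec.snd.comp Primrec.fst)
    (g := fun (x : (PCode j × PCode j) × (ℤ × (Fin j → ℤ))) (q : ℤ × (Fin j → ℤ)) =>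
      (x.2.1 * q.1, x.2.2 + q.2)) ?_
  exact Primrec.pair
    (pr_mul.comp (Primrec.fst.comp (Primrec.snd.comp Primrec.fst)) (Primrec.fst.comp Primrec.snd))
    (pr_vadd.comp (Primrec.snd.comp (Primrec.snd.comp Primrec.fst)) (Primrec.snd.comp Primrec.snd))

theorem pr_pneg : Primrec (pneg : PCode j → PCode j) := by
  refine Primrec.list_map Primrec.id
    (g := fun (_ : PCode j) (p : ℤ × (Fin j → ℤ)) => (-p.1, p.2)) ?_
  exact Primrec.pair (pr_neg.comp (Primrec.fst.comp Primrec.snd)) (Primrec.snd.comp Primrec.snd)

theorem pr_mmul : Primrec₂ (mmul : MCode j → MCode j → MCode j) := by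
  refine fin_of fun a => fin_of fun b => ?_
  exact Primrec.list_append.comp
    (pr_pmul.comp (app (app Primrec.fst a) 0) (app (app Primrec.snd 0) b))
    (pr_pmul.comp (app (app Primrec.fst a) 1) (app (app Primrec.snd 1) b))

theorem pr_elc : Primrec (elc : Bool × PCode j → MCode j) := by
  refine fin_of fun a => fin_of fun b => ?_
  have h1 : Primrec fun x : Bool × PCode j => cond x.1 x.2 ([] : PCode j) :=
    Primrec.cond Primrec.fst Primrec.snd (Primrec.const [])
  have h2 : Primrec fun x : Bool × PCode j => cond x.1 ([] : PCode j) x.2 :=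
    Primrec.cond Primrec.fst (Primrec.const []) Primrec.snd
  by_cases hab : a = b
  · refine (Primrec.const (pone : PCode j)).of_eq fun x => ?_
    simp [elc, hab]
  · by_cases ha : a = 0
    · refine h1.of_eq fun x => ?_
      obtain ⟨x1, x2⟩ := x
      subst ha
      cases x1 <;> simp [elc, hab]
    · have ha1 : a = 1 := by
        clear hab
        revert ha
        revert a
        decide
      refine h2.of_eq fun x => ?_
      obtain ⟨x1, x2⟩ := x
      subst ha1
      cases x1 <;> simp [elc, hab]

theorem pr_word : Primrec₂ (word : List (Bool × PCode j) → MCode j → MCode j) := by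
  refine Primrec.list_foldr Primrec.fst Primrec.snd
    (h := fun (_ : List (Bool × PCode j) × MCode j) (p : (Bool × PCode j) × MCode j) =>
      mmul (elc p.1) p.2) ?_
  exact pr_mmul.comp (pr_elc.comp (Primrec.fst.comp Primrec.snd)) (Primrec.snd.comp Primrec.snd)

theorem pr_dcode : Primrec (dcode : MCode j → PCode j) :=
  Primrec.list_append.comp
    (pr_pmul.comp (app (app Primrec.id 0) 0) (app (app Primrec.id 1) 1))
    (pr_pneg.comp (pr_pmul.comp (app (app Primrec.id 0) 1) (app (app Primrec.id 1) 0)))

end Pool.Agent.LPR
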