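import Mathlib
import Pool.Agent.LPR.CodeSem
import Pool.Agent.LPR.IntPR

/-!
LPR-CodePRB: more operations on codes are primitive recursive.

PLAN.  `vmul`: `Primrec.fin_curry` and `pr_sum` with `Primrec.list_map` over the constant list
`List.finRange j`, `pr_mul`, `Primrec.fin_app`.  `coef`: `pr_sum`, `Primrec.list_map`,
`Primrec.ite`, `Primrec.eq`.  `pr_peq`: by `pval_eq_iff` the relation is
`∀ p ∈ c ++ d, coef c p.2 = coef d p.2`: use `PrimrecRel.forall_mem_list` (or
`PrimrecPred.forall_mem_list` after pairing), `Primrec.list_append`.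
-/

namespace Pool.Agent.LPR

variable {j : ℕ}

private theorem pb_app {n : ℕ} {α σ : Type} [Primcodable α] [Primcodable σ]
    {f : α → Fin n → σ} {g : α → Fin n} (hf : Primrec f) (hg : Primrec g) :
    Primrec fun a => f a (g a) :=
  Primrec.fin_app.comp hf hg

private theorem pb_vmul_body :
    Primrec₂ (fun (p : (Fin j → Fin j → ℤ) × (Fin j → ℤ)) (i : Fin j) => vmul p.1 p.2 i) := by
  have h : Primrec₂ (fun (q : ((Fin j → Fin j → ℤ) × (Fin j → ℤ)) × Fin j) (k : Fin j) =>
      q.1.1 q.2 k * q.1.2 k) := by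
    refine pr_mul.comp₂ ?_ ?_
    · exact pb_app (pb_app (Primrec.fst.comp (Primrec.fst.comp Primrec.fst))
        (Primrec.snd.comp Primrec.fst)) Primrec.snd
    · exact pb_app (Primrec.snd.comp (Primrec.fst.comp Primrec.fst)) Primrec.snd
  exact pr_sum.comp (Primrec.list_map (Primrec.const (List.finRange j)) h)

theorem pr_vmul : Primrec₂ (vmul : (Fin j → Fin j → ℤ) → (Fin j → ℤ) → (Fin j → ℤ)) := by
  exact Primrec.fin_curry.2 pb_vmul_body

theorem pr_tr : Primrec₂ (tr : (Fin j → Fin j → ℤ) → PCode j → PCode j) := by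
  have h : Primrec₂ (fun (a : (Fin j → Fin j → ℤ) × PCode j) (p : ℤ × (Fin j → ℤ)) =>
      (p.1, vmul a.1 p.2)) := by
    refine Primrec.pair (Primrec.fst.comp Primrec.snd) ?_
    exact pr_vmul.comp (Primrec.fst.comp Primrec.fst) (Primrec.snd.comp Primrec.snd)
  exact Primrec.list_map Primrec.snd h

theorem pr_coef : Primrec₂ (coef : PCode j → (Fin j → ℤ) → ℤ) := by
  have h : Primrec₂ (fun (a : PCode j × (Fin j → ℤ)) (p : ℤ × (Fin j → ℤ)) =>
      if p.2 = a.2 then p.1 else 0) := by
    refine Primrec.ite ?_ (Primrec.fst.comp Primrec.snd) (Primrec.const 0)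
    exact Primrec.eq.comp (Primrec.snd.comp Primrec.snd) (Primrec.snd.comp Primrec.fst)
  exact pr_sum.comp (Primrec.list_map Primrec.fst h)

theorem pr_peq : PrimrecRel (fun c d : PCode j => pval c = pval d) := by
  have h : PrimrecRel (fun (p : ℤ × (Fin j → ℤ)) (z : PCode j × PCode j) =>
      coef z.1 p.2 = coef z.2 p.2) := by
    refine Primrec.eq.comp ?_ ?_
    · exact pr_coef.comp (Primrec.fst.comp Primrec.snd) (Primrec.snd.comp Primrec.fst)
    · exact pr_coef.comp (Primrec.snd.comp Primrec.snd) (Primrec.snd.comp Primrec.fst)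
  have h2 : PrimrecRel (fun c d : PCode j => ∀ p ∈ c ++ d, coef c p.2 = coef d p.2) := by
    exact (PrimrecRel.forall_mem_list h).comp
      (Primrec.list_append.comp Primrec.fst Primrec.snd) Primrec.id
  exact h2.of_eq fun c d => (pval_eq_iff c d).symm

end Pool.Agent.LPR
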