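import Mathlib
import Pool.Agent.LPR.CodePR
import Pool.Agent.LPR.CodePRB

/-!
LPR-GoodPR: goodness of certificates is a primitive recursive relation.

PLAN.  Conjunction of four conditions (`PrimrecPred.and`).  Quantifiers over `i k : Fin j`,
`a b : Fin 2`: write `∀ i` as `∀ i ∈ List.finRange j` (`PrimrecPred.forall_mem_list` /
`PrimrecRel.forall_mem_list` with a constant list) or prove a private lemma by induction:
`(∀ i, PrimrecPred (p i)) → PrimrecPred (fun x => ∀ i : Fin n, p i x)`.
Components of `z`: `Primrec.fst`, `Primrec.snd`; evaluation at fixed or variable index: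
`Primrec.fin_app`.
-/

namespace Pool.Agent.LPR

variable {j : ℕ}

private theorem lprg_true {α : Type*} [Primcodable α] : PrimrecPred (fun _ : α => True) :=
  (Primrec.eq.comp (Primrec.const (0 : ℕ)) (Primrec.const (0 : ℕ)) :
    PrimrecPred (fun _ : α => (0 : ℕ) = 0)).of_eq fun _ => by simp

private theorem lprg_fin {α : Type*} [Primcodable α] : ∀ {n : ℕ} {p : Fin n → α → Prop},
    (∀ i, PrimrecPred (p i)) → PrimrecPred (fun x => ∀ i, p i x)
  | 0, p, _ => (lprg_true (α := α)).of_eq fun x => by simp
  | n + 1, p, h => by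
    have h1 := (h 0).and (lprg_fin (n := n) (p := fun i => p i.succ) fun i => h i.succ)
    exact h1.of_eq fun x => (Fin.forall_fin_succ (P := fun i => p i x)).symm

private theorem lprg_app {α σ : Type*} [Primcodable α] [Primcodable σ] {n : ℕ}
    {f : α → Fin n → σ} (hf : Primrec f) {g : α → Fin n} (hg : Primrec g) :
    Primrec (fun a => f a (g a)) :=
  Primrec.fin_app.comp hf hg

private theorem lprg_col {α : Type*} [Primcodable α] {f : α → Fin j → Fin j → ℤ}
    (hf : Primrec f) (k : Fin j) : Primrec (fun a => fun l => f a l k) := by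
  rw [Primrec.fin_curry]
  exact lprg_app (lprg_app (hf.comp Primrec.fst) Primrec.snd) (Primrec.const k)

theorem pr_good (N : ℕ) : PrimrecRel (fun (c : MCode j) (z : Cert j) => Good N c z) := by
  have hc : Primrec (fun p : MCode j × Cert j => p.1) := Primrec.fst
  have hl : Primrec (fun p : MCode j × Cert j => p.2.1) := Primrec.fst.comp Primrec.snd
  have hB : Primrec (fun p : MCode j × Cert j => p.2.2.1) :=
    Primrec.fst.comp (Primrec.snd.comp Primrec.snd)
  have hB' : Primrec (fun p : MCode j × Cert j => p.2.2.2.1) :=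
    Primrec.fst.comp (Primrec.snd.comp (Primrec.snd.comp Primrec.snd))
  have hd : Primrec (fun p : MCode j × Cert j => p.2.2.2.2) :=
    Primrec.snd.comp (Primrec.snd.comp (Primrec.snd.comp Primrec.snd))
  have h1 : PrimrecPred (fun p : MCode j × Cert j => ∀ i k,
      vmul p.2.2.1 (fun l => p.2.2.2.1 l k) i = if i = k then 1 else 0) :=
    lprg_fin fun i => lprg_fin fun k =>
      Primrec.eq.comp (lprg_app (pr_vmul.comp hB (lprg_col hB' k)) (Primrec.const i))
        (Primrec.const _)
  have h2 : PrimrecPred (fun p : MCode j × Cert j => ∀ i k,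
      vmul p.2.2.2.1 (fun l => p.2.2.1 l k) i = if i = k then 1 else 0) :=
    lprg_fin fun i => lprg_fin fun k =>
      Primrec.eq.comp (lprg_app (pr_vmul.comp hB' (lprg_col hB k)) (Primrec.const i))
        (Primrec.const _)
  have h3 : PrimrecPred (fun p : MCode j × Cert j => ∀ a b, ∀ q ∈ p.2.2.2.2 a b, ∀ i,
      (N : ℤ) ≤ q.2 i) := by
    refine lprg_fin fun a => lprg_fin fun b => ?_
    have h4 : PrimrecPred (fun q : ℤ × (Fin j → ℤ) => ∀ i, (N : ℤ) ≤ q.2 i) :=
      lprg_fin fun i => pr_le.comp (Primrec.const _) (lprg_app Primrec.snd (Primrec.const i))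
    exact h4.forall_mem_list.comp (lprg_app (lprg_app hd (Primrec.const a)) (Primrec.const b))
  have h5 : PrimrecPred (fun p : MCode j × Cert j => ∀ a b,
      pval (mone a b ++ p.2.2.2.2 a b) = pval (tr p.2.2.1 (word p.2.1 p.1 a b))) :=
    lprg_fin fun a => lprg_fin fun b =>
      pr_peq.comp (Primrec.list_append.comp (Primrec.const _)
        (lprg_app (lprg_app hd (Primrec.const a)) (Primrec.const b)))
        (pr_tr.comp hB (lprg_app (lprg_app (pr_word.comp hl hc) (Primrec.const a))
          (Primrec.const b)))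
  exact h1.and (h2.and (h3.and h5))

theorem pr_det : PrimrecPred (fun c : MCode j => pval (dcode c) = pval (pone : PCode j)) :=
  pr_peq.comp pr_dcode (Primrec.const _)

end Pool.Agent.LPR
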