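import Mathlib
import Pool.Agent.LPR.CertEx
import Pool.Agent.LPR.GoodPR

/-!
LPR-MainB: Theorem B.
-/

namespace Pool.Agent.LPR

/-- search for certificates -/
private theorem mnb_search {α β γ : Type*} [Primcodable α] [Primcodable β] [Primcodable γ]
    {D : α → Prop} (hD : PrimrecPred D) {G : α → β → Prop} (hG : PrimrecRel G)
    {u : β → γ} (hu : Primrec u) {f : γ → Bool} (hf : Computable f)
    (hex : ∀ a, D a → ∃ b, G a b) {T : α → Prop}
    (hT : ∀ a b, D a → G a b → (f (u b) = true ↔ T a)) :
    ∃ F : α → Bool, Computable F ∧ ∀ a, D a → (F a = true ↔ T a) := by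
  obtain ⟨i1, hdet⟩ := hD
  obtain ⟨i2, hgood⟩ := hG
  obtain ⟨H, hHdef⟩ : ∃ H : α → ℕ → Option Bool, H = fun c n =>
      bif @decide (D c) (i1 c) then
        ((Encodable.decode n : Option β).bind fun z =>
          bif @decide (G c z) (i2 (c, z)) then some (f (u z)) else none)
      else some false := ⟨_, rfl⟩
  have hH : Computable₂ H := by
    rw [hHdef]
    refine Computable.cond ?_ ?_ ?_
    · exact hdet.to_comp.comp Computable.fst
    · refine Computable.option_bind (Computable.decode.comp Computable.snd) ?_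
      refine Computable.cond (c := fun q : (α × ℕ) × β =>
        @decide (G q.1.1 q.2) (i2 (q.1.1, q.2))) ?_ ?_ ?_
      · exact hgood.to_comp.comp (Computable.pair (Computable.fst.comp Computable.fst) Computable.snd)
      · exact Computable.option_some.comp (hf.comp (hu.to_comp.comp Computable.snd))
      · exact Computable.const none
    · exact Computable.const (some false)
  have hdom : ∀ c, (Nat.rfindOpt (H c)).Dom := by
    intro c
    rw [Nat.rfindOpt_dom, hHdef]
    by_cases hc : D c
    · obtain ⟨z, hz⟩ := hex c hc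
      refine ⟨Encodable.encode z, f (u z), ?_⟩
      show (bif @decide (D c) (i1 c) then _ else _) = some _
      rw [(@decide_eq_true_iff _ (i1 c)).2 hc, cond_true, Encodable.encodek]
      show (bif @decide (G c z) (i2 (c, z)) then _ else _) = some _
      rw [(@decide_eq_true_iff _ (i2 (c, z))).2 hz, cond_true]
    · refine ⟨0, false, ?_⟩
      show (bif @decide (D c) (i1 c) then _ else _) = some _
      rw [(@decide_eq_false_iff_not _ (i1 c)).2 hc, cond_false]
  refine ⟨fun c => (Nat.rfindOpt (H c)).get (hdom c),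
    (Partrec.rfindOpt hH).of_eq_tot fun c => Part.get_mem _, fun c hc => ?_⟩
  obtain ⟨n, hn⟩ := Nat.rfindOpt_spec (Part.get_mem (hdom c))
  obtain ⟨v, hv⟩ : ∃ v, v = (Nat.rfindOpt (H c)).get (hdom c) := ⟨_, rfl⟩
  show (Nat.rfindOpt (H c)).get (hdom c) = true ↔ _
  rw [← hv] at hn ⊢
  have hn' : H c n = some v := hn
  rw [hHdef] at hn'
  change (bif @decide (D c) (i1 c) then _ else _) = some _ at hn'
  rw [(@decide_eq_true_iff _ (i1 c)).2 hc, cond_true] at hn'
  obtain ⟨z, -, hz⟩ := Option.bind_eq_some_iff.1 hn'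
  by_cases hg : G c z
  · rw [(@decide_eq_true_iff _ (i2 (c, z))).2 hg, cond_true] at hz
    rw [← Option.some.inj hz]
    exact hT c z hc hg
  · rw [(@decide_eq_false_iff_not _ (i2 (c, z))).2 hg, cond_false] at hz
    exact absurd hz (by simp)

private theorem mnb_arrow {α σ : Type*} [Primcodable α] [Primcodable σ] {f : α → Fin 2 → σ}
    (h : Primrec fun p : α × Fin 2 => f p.1 p.2) : Primrec f := Primrec.fin_curry.2 h

private theorem mnb_app {α σ : Type*} [Primcodable α] [Primcodable σ] {f : α → Fin 2 → σ}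
    {g : α → Fin 2} (hf : Primrec f) (hg : Primrec g) : Primrec fun a => f a (g a) :=
  Primrec.fin_app.comp hf hg

private theorem mnb_gen {σ : Type*} [Primcodable σ] (m : Fin 2 → Fin 2 → List σ) :
    Primrec (fun (d : Fin 2 → Fin 2 → List σ) (a b : Fin 2) => m a b ++ d a b) := by
  apply mnb_arrow
  apply mnb_arrow
  have h1 : Primrec (fun q : ((Fin 2 → Fin 2 → List σ) × Fin 2) × Fin 2 => m q.1.2 q.2) :=
    (Primrec.dom_finite (fun r : Fin 2 × Fin 2 => m r.1 r.2)).comp
      (Primrec.pair (Primrec.snd.comp Primrec.fst) Primrec.snd)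
  have h2 : Primrec (fun q : ((Fin 2 → Fin 2 → List σ) × Fin 2) × Fin 2 => q.1.1 q.1.2 q.2) :=
    mnb_app (mnb_app (Primrec.fst.comp Primrec.fst) (Primrec.snd.comp Primrec.fst)) Primrec.snd
  exact Primrec.list_append.comp h1 h2

theorem mainB (j N : ℕ) : TameAlg j (fun _ => True) ↔ TameAlg j (Cong N) := by
  constructor
  · rintro ⟨f, hf, h⟩
    exact ⟨f, hf, fun c hc _ => h c hc trivial⟩
  rintro ⟨f, hf, h⟩
  have hdet1 : ∀ c : MCode j, pval (dcode c) = pval (pone : PCode j) ↔ (mval c).det = 1 := by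
    intro c
    rw [pval_dcode, pval_pone]
  have hu : Primrec (fun z : Cert j => (fun a b => mone a b ++ z.2.2.2 a b : MCode j)) :=
    (mnb_gen (mone : MCode j)).comp (Primrec.snd.comp (Primrec.snd.comp Primrec.snd))
  obtain ⟨F, hF, hF2⟩ := mnb_search (T := fun c => Tame (mval c)) pr_det (pr_good N) hu hf
    (fun c hc => exists_good N c ((hdet1 c).1 hc)) (fun c z hc hz => by
      rw [h _ (good_det hz ((hdet1 c).1 hc)) (good_cong hz)]
      exact (good_iff hz).symm)
  exact ⟨F, hF, fun c hc _ => hF2 c ((hdet1 c).2 hc)⟩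

end Pool.Agent.LPR
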